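import Pool.Agent.H283R2.DR.IndepLocal
import Pool.Agent.H283R2.DR.Glue
import Pool.Agent.H283R2.DR.TaskC

/-!
# Two rigid bodies in space joined by bars: the basic steps
-/

set_option autoImplicit false

namespace Pool.Agent.TH912.Rig

open Matrix Finset Pool.Agent.H283R2.DR

variable {V : Type} {p : V → Fin 3 → ℝ}

/-- a vector orthogonal to three edges of a nondegenerate tetrahedron vanishes -/
theorem orth_zero (hp : Gen p) {x y z w : V} (hxy : x ≠ y) (hxz : x ≠ z) (hxw : x ≠ w)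
    (hyz : y ≠ z) (hyw : y ≠ w) (hzw : z ≠ w) {r : Fin 3 → ℝ}
    (h1 : (p y - p x) ⬝ᵥ r = 0) (h2 : (p z - p x) ⬝ᵥ r = 0) (h3 : (p w - p x) ⬝ᵥ r = 0) :
    r = 0 := by
  have hinj : Function.Injective ![x, y, z, w] := by
    intro i j hij
    fin_cases i <;> fin_cases j <;> simp_all
  have haff := hp.pos 4 ![x, y, z, w] le_rfl hinj
  rw [affineIndependent_iff_linearIndependent_vsub ℝ _ (0 : Fin 4)] at haff
  have hspan := haff.span_eq_top_of_card_eq_finrank' (by simp)
  have horth : ∀ i : {y : Fin 4 // y ≠ 0},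
      (p (![x, y, z, w] i) -ᵥ p (![x, y, z, w] 0)) ⬝ᵥ r = 0 := by
    rintro ⟨i, hi⟩
    fin_cases i
    · exact absurd rfl hi
    · simpa using h1
    · simpa using h2
    · simpa using h3
  have hall : ∀ v : Fin 3 → ℝ, v ⬝ᵥ r = 0 := by
    intro v
    have hw : v ∈ Submodule.span ℝ (Set.range fun i : {y : Fin 4 // y ≠ 0} =>
        (p (![x, y, z, w] i) -ᵥ p (![x, y, z, w] 0) : Fin 3 → ℝ)) := by
      rw [hspan]; trivial
    induction hw using Submodule.span_induction with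
    | mem y hy =>
      obtain ⟨i, rfl⟩ := hy
      exact horth i
    | zero => simp
    | add y z _ _ hy hz => rw [add_dotProduct, hy, hz, add_zero]
    | smul c y _ hy => rw [smul_dotProduct, hy, smul_zero]
  exact dotProduct_self_eq_zero.1 (hall r)

/-- **1-extension** for rigid vertex sets -/
theorem ext1R (hp : Gen p) {G : SimpleGraph V} {U : Set V} {v x y z w : V} (hv : v ∉ U)
    (hxU : x ∈ U) (hyU : y ∈ U) (hzU : z ∈ U) (hwU : w ∈ U)
    (hxy : x ≠ y) (hxz : x ≠ z) (hxw : x ≠ w) (hyz : y ≠ z) (hyw : y ≠ w) (hzw : z ≠ w)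
    (ax : G.Adj v x) (ay : G.Adj v y) (az : G.Adj v z) (aw : G.Adj v w)
    (h : RigidOn (G ⊔ SimpleGraph.edge x y) U p) : RigidOn G (insert v U) p := by
  classical
  set p' : V → Fin 3 → ℝ := Function.update p v ((1 / 2 : ℝ) • (p x + p y)) with hp'
  have hne : ∀ u ∈ U, u ≠ v := fun u hu he => hv (he ▸ hu)
  have hpU : ∀ u ∈ U, p' u = p u := fun u hu => Function.update_of_ne (hne u hu) _ _
  have hpv : p' v = (1 / 2 : ℝ) • (p x + p y) := Function.update_self _ _ _
  refine hp.rigid G (insert v U) p' ?_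
  intro q hq
  -- the constraint of the new edge
  have cx := hq v (Or.inl rfl) x (Or.inr hxU) ax
  have cy := hq v (Or.inl rfl) y (Or.inr hyU) ay
  have cz := hq v (Or.inl rfl) z (Or.inr hzU) az
  have cw := hq v (Or.inl rfl) w (Or.inr hwU) aw
  rw [hpv, hpU x hxU] at cx
  rw [hpv, hpU y hyU] at cy
  rw [hpv, hpU z hzU] at cz
  rw [hpv, hpU w hwU] at cw
  have e1 : (1 / 2 : ℝ) • (p x + p y) - p x = (1 / 2 : ℝ) • (p y - p x) := by
    ext i; simp; ring
  have e2 : (1 / 2 : ℝ) • (p x + p y) - p y = -((1 / 2 : ℝ) • (p y - p x)) := by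
    ext i; simp; ring
  rw [e1, smul_dotProduct, smul_eq_mul] at cx
  rw [e2, neg_dotProduct, smul_dotProduct, smul_eq_mul] at cy
  have cxy : (p x - p y) ⬝ᵥ (q x - q y) = 0 := by
    have e3 : (p x - p y) ⬝ᵥ (q x - q y) =
        ((p y - p x) ⬝ᵥ (q v - q x)) - ((p y - p x) ⬝ᵥ (q v - q y)) := by
      rw [← dotProduct_sub, ← neg_sub (p y) (p x), neg_dotProduct]
      rw [← dotProduct_neg]
      congr 1
      abel
    rw [e3]
    have f1 : (p y - p x) ⬝ᵥ (q v - q x) = 0 := by linarith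
    have f2 : (p y - p x) ⬝ᵥ (q v - q y) = 0 := by linarith
    rw [f1, f2, sub_zero]
  obtain ⟨A, b, hA, hb⟩ := h q (by
    intro a ha c hc hac
    rw [SimpleGraph.sup_adj, SimpleGraph.edge_adj] at hac
    rcases hac with hac | ⟨hac | hac, -⟩
    · have := hq a (Or.inr ha) c (Or.inr hc) hac
      rwa [hpU a ha, hpU c hc] at this
    · obtain ⟨rfl, rfl⟩ := hac
      exact cxy
    · obtain ⟨rfl, rfl⟩ := hac
      rw [← neg_sub (p c), ← neg_sub (q c), neg_dotProduct_neg]
      exact cxy)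
  refine ⟨A, b, hA, ?_⟩
  set r : Fin 3 → ℝ := q v - (A *ᵥ p' v + b) with hr
  have horth : ∀ u ∈ U, (p' v - p u) ⬝ᵥ (q v - q u) = 0 → (p' v - p u) ⬝ᵥ r = 0 := by
    intro u hu h1
    have h3 : q v - q u = r + A *ᵥ (p' v - p u) := by
      rw [hr, hb u hu, mulVec_sub]
      abel
    rwa [h3, dotProduct_add, IL.skew_dot A hA, add_zero] at h1
  have ox := horth x hxU (by rw [hpv, e1, smul_dotProduct, smul_eq_mul]; exact cx)
  have oz := horth z hzU (by rw [hpv]; exact cz)
  have ow := horth w hwU (by rw [hpv]; exact cw)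
  have oy : (p y - p x) ⬝ᵥ r = 0 := by
    rw [hpv, e1, smul_dotProduct, smul_eq_mul] at ox
    linarith
  have hr0 : r = 0 := by
    refine orth_zero hp hxy hxz hxw hyz hyw hzw oy ?_ ?_
    · have : p z - p x = (p' v - p x) - (p' v - p z) := by abel
      rw [this, sub_dotProduct, ox, oz, sub_zero]
    · have : p w - p x = (p' v - p x) - (p' v - p w) := by abel
      rw [this, sub_dotProduct, ox, ow, sub_zero]
  rintro u (rfl | hu)
  · rw [hr, sub_eq_zero] at hr0
    exact hr0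
  · rw [hpU u hu]
    exact hb u hu

/-- all pairs inside `A` -/
def Kn (A : Finset V) : SimpleGraph V where
  Adj u v := u ≠ v ∧ u ∈ A ∧ v ∈ A
  symm := ⟨fun _ _ h => ⟨h.1.symm, h.2.2, h.2.1⟩⟩
  loopless := ⟨fun _ h => h.1 rfl⟩

/-- `G` is complete on `A` -/
def Cl (G : SimpleGraph V) (A : Finset V) : Prop := ∀ u ∈ A, ∀ v ∈ A, u ≠ v → G.Adj u v

theorem Cl.mono {G H : SimpleGraph V} {A : Finset V} (h : Cl G A) (hGH : G ≤ H) : Cl H A :=
  fun u hu v hv huv => hGH (h u hu v hv huv)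

theorem Cl.subset {G : SimpleGraph V} {A B : Finset V} (h : Cl G A) (hB : B ⊆ A) : Cl G B :=
  fun u hu v hv huv => h u (hB hu) v (hB hv) huv

theorem cl_sup (G : SimpleGraph V) (A : Finset V) : Cl (G ⊔ Kn A) A :=
  fun _ hu _ hv huv => Or.inr ⟨huv, hu, hv⟩

/-- the pairs inside a rigid set may be added -/
theorem fill {G : SimpleGraph V} {A : Finset V} {W : Set V} (hA : RigidOn G (↑A : Set V) p)
    (hAW : ∀ a ∈ A, a ∈ W) (h : RigidOn (G ⊔ Kn A) W p) : RigidOn G W p := by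
  intro q hq
  obtain ⟨B, b, hB, hb⟩ := hA q (fun u hu v hv huv => hq u (hAW u hu) v (hAW v hv) huv)
  refine h q ?_
  intro u hu v hv huv
  rw [SimpleGraph.sup_adj] at huv
  rcases huv with huv | ⟨-, hu', hv'⟩
  · exact hq u hu v hv huv
  · rw [hb u hu', hb v hv', add_sub_add_right_eq_sub, ← Matrix.mulVec_sub]
    exact skew_dot_self hB _

theorem rigid_of_set_eq {G : SimpleGraph V} {U U' : Set V} (h : RigidOn G U p) (hU : U = U') :
    RigidOn G U' p := hU ▸ h

end Pool.Agent.TH912.Rig
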