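import Pool.Agent.TH912.Rig.Merge
import Pool.Agent.H789R5.RF.Rank

/-!
# Two rigid bodies joined by bars: the characterization
-/

set_option autoImplicit false

namespace Pool.Agent.TH912.Rig

open Matrix Finset Pool.Agent.H283R2.DR

variable {V : Type} {p : V → Fin 3 → ℝ}

open Classical in
/-- the edges of `G` with first end in `S` and second end in `T` -/
noncomputable def bars (G : SimpleGraph V) (S T : Finset V) : Finset (V × V) :=
  (S ×ˢ T).filter (fun e => G.Adj e.1 e.2)

theorem mem_bars {G : SimpleGraph V} {S T : Finset V} {e : V × V} :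
    e ∈ bars G S T ↔ e.1 ∈ S ∧ e.2 ∈ T ∧ G.Adj e.1 e.2 := by
  classical
  simp only [bars, mem_filter, mem_product]
  tauto

variable [DecidableEq V]

/-- two rigid sets without common vertices -/
theorem two_disjoint (hp : Gen p) {G : SimpleGraph V} {A B : Finset V} (hA : Cl G A) (hB : Cl G B)
    (hd : Disjoint A B) (h6 : 6 ≤ (bars G A B).card)
    (hv : ∀ v ∈ A ∪ B, 3 ≤ (bars G (A \ {v}) (B \ {v})).card ∧
      ∀ w, ∃ e ∈ bars G (A \ {v}) (B \ {v}), e.1 ≠ w ∧ e.2 ≠ w) :
    RigidOn G (↑(A ∪ B) : Set V) p := by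
  by_cases h1 : ∃ v, 3 ≤ ((bars G A B).filter (fun e => e.2 = v)).card
  · obtain ⟨v, h3⟩ := h1
    obtain ⟨F, hF, hFc⟩ := exists_subset_card_eq h3
    obtain ⟨e, f, g, hef, heg, hfg, hF3⟩ := card_eq_three.1 hFc
    have he := hF (show e ∈ F by rw [hF3]; simp)
    have hf := hF (show f ∈ F by rw [hF3]; simp)
    have hg := hF (show g ∈ F by rw [hF3]; simp)
    rw [mem_filter, mem_bars] at he hf hg
    obtain ⟨⟨e1, e2, e3⟩, e4⟩ := he
    obtain ⟨⟨f1, f2, f3⟩, f4⟩ := hf
    obtain ⟨⟨g1, g2, g3⟩, g4⟩ := hg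
    rw [e4] at e2 e3
    rw [f4] at f3
    rw [g4] at g3
    obtain ⟨c1, c2⟩ := hv v (mem_union_right _ e2)
    refine state0a hp hA hB e2 e1 f1 g1 (fun h => hef (Prod.ext h (e4.trans f4.symm)))
      (fun h => heg (Prod.ext h (e4.trans g4.symm))) (fun h => hfg (Prod.ext h (f4.trans g4.symm)))
      e3.symm f3.symm g3.symm (bars G (A \ {v}) (B \ {v})) ?_ c1 c2
    intro k hk
    rw [mem_bars, mem_sdiff, mem_sdiff, mem_singleton, mem_singleton] at hk
    exact ⟨hk.1.1, hk.2.1.1, hk.1.2, hk.2.1.2, hk.2.2⟩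
  by_cases h2 : ∃ v, 3 ≤ ((bars G A B).filter (fun e => e.1 = v)).card
  · obtain ⟨v, h3⟩ := h2
    obtain ⟨F, hF, hFc⟩ := exists_subset_card_eq h3
    obtain ⟨e, f, g, hef, heg, hfg, hF3⟩ := card_eq_three.1 hFc
    have he := hF (show e ∈ F by rw [hF3]; simp)
    have hf := hF (show f ∈ F by rw [hF3]; simp)
    have hg := hF (show g ∈ F by rw [hF3]; simp)
    rw [mem_filter, mem_bars] at he hf hg
    obtain ⟨⟨e1, e2, e3⟩, e4⟩ := he
    obtain ⟨⟨f1, f2, f3⟩, f4⟩ := hf
    obtain ⟨⟨g1, g2, g3⟩, g4⟩ := hg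
    rw [e4] at e1 e3
    rw [f4] at f3
    rw [g4] at g3
    obtain ⟨c1, c2⟩ := hv v (mem_union_left _ e1)
    refine state0b hp hA hB e1 e2 f2 g2 (fun h => hef (Prod.ext (e4.trans f4.symm) h))
      (fun h => heg (Prod.ext (e4.trans g4.symm) h)) (fun h => hfg (Prod.ext (f4.trans g4.symm) h))
      e3 f3 g3 (bars G (A \ {v}) (B \ {v})) ?_ c1 c2
    intro k hk
    rw [mem_bars, mem_sdiff, mem_sdiff, mem_singleton, mem_singleton] at hk
    exact ⟨hk.1.1, hk.2.1.1, hk.1.2, hk.2.1.2, hk.2.2⟩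
  push Not at h1 h2
  obtain ⟨E, hE, hEc⟩ := exists_subset_card_eq h6
  refine merge hp A.card G A B E rfl hd hA hB ?_ hEc ?_ ?_
  · intro e he
    exact mem_bars.1 (hE he)
  · intro v
    have h3 := card_le_card (filter_subset_filter (fun e : V × V => e.1 = v) hE)
    have h4 := h2 v
    omega
  · intro v
    have h3 := card_le_card (filter_subset_filter (fun e : V × V => e.2 = v) hE)
    have h4 := h1 v
    omega

/-- **Sufficiency** for two rigid sets `A`, `B` -/
theorem two_bodies (hp : Gen p) {G : SimpleGraph V} {A B : Finset V}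
    (hA : RigidOn G (↑A : Set V) p) (hB : RigidOn G (↑B : Set V) p)
    (hc : ∀ U : Finset V, A ∩ B ⊆ U → U ⊆ A ∪ B → U.card ≤ 2 →
      (4 - U.card).choose 2 ≤ (bars G (A \ U) (B \ U)).card) :
    RigidOn G (↑(A ∪ B) : Set V) p := by
  by_cases h3 : 3 ≤ (A ∩ B).card
  · exact glue hp hA hB h3
  push Not at h3
  -- fill
  have hAs : ∀ a ∈ A, a ∈ (↑(A ∪ B) : Set V) := fun a ha => mem_coe.2 (mem_union_left _ ha)
  have hBs : ∀ a ∈ B, a ∈ (↑(A ∪ B) : Set V) := fun a ha => mem_coe.2 (mem_union_right _ ha)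
  refine fill hA hAs (fill (hB.mono_graph fun _ _ _ _ h => Or.inl h) hBs ?_)
  set H := G ⊔ Kn A ⊔ Kn B with hH
  have hGH : G ≤ H := le_sup_left.trans le_sup_left
  have clA : Cl H A := (cl_sup G A).mono le_sup_left
  have clB : Cl H B := cl_sup _ B
  have hbm : ∀ S T, (bars G S T).card ≤ (bars H S T).card := by
    intro S T
    apply card_le_card
    intro e he
    rw [mem_bars] at *
    exact ⟨he.1, he.2.1, hGH he.2.2⟩
  have hc' : ∀ U : Finset V, A ∩ B ⊆ U → U ⊆ A ∪ B → U.card ≤ 2 →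
      (4 - U.card).choose 2 ≤ (bars H (A \ U) (B \ U)).card :=
    fun U h1 h2 h3 => (hc U h1 h2 h3).trans (hbm _ _)
  -- one vertex
  have hone : ∀ v ∈ A ∪ B, A ∩ B ⊆ {v} → 3 ≤ (bars H (A \ {v}) (B \ {v})).card ∧
      ∀ w, ∃ e ∈ bars H (A \ {v}) (B \ {v}), e.1 ≠ w ∧ e.2 ≠ w := by
    intro v hv hAB
    have e1 := hc' {v} hAB (by simpa using hv) (by simp)
    rw [card_singleton] at e1
    have e1' : 3 ≤ (bars H (A \ {v}) (B \ {v})).card := by simpa using e1
    refine ⟨e1', ?_⟩
    intro w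
    obtain ⟨e0, he0⟩ : (bars H (A \ {v}) (B \ {v})).Nonempty := by rw [← card_pos]; omega
    by_cases hw : w ∈ A ∪ B ∧ w ≠ v
    · have e2 := hc' {v, w} (hAB.trans (by simp)) (by
        intro x hx
        simp only [mem_insert, mem_singleton] at hx
        rcases hx with rfl | rfl
        · exact hv
        · exact hw.1) (by rw [card_pair hw.2.symm])
      rw [card_pair hw.2.symm] at e2
      have e2' : 0 < (bars H (A \ {v, w}) (B \ {v, w})).card := lt_of_lt_of_le (by decide) e2
      rw [card_pos] at e2'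
      obtain ⟨e, he⟩ := e2'
      rw [mem_bars, mem_sdiff, mem_sdiff] at he
      simp only [mem_insert, mem_singleton, not_or] at he
      refine ⟨e, ?_, he.1.2.2, he.2.1.2.2⟩
      rw [mem_bars, mem_sdiff, mem_sdiff, mem_singleton, mem_singleton]
      exact ⟨⟨he.1.1, he.1.2.1⟩, ⟨he.2.1.1, he.2.1.2.1⟩, he.2.2⟩
    · refine ⟨e0, he0, ?_, ?_⟩
      · rintro rfl
        apply hw
        rw [mem_bars, mem_sdiff, mem_sdiff, mem_singleton, mem_singleton] at he0
        exact ⟨mem_union_left _ he0.1.1, he0.1.2⟩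
      · rintro rfl
        apply hw
        rw [mem_bars, mem_sdiff, mem_sdiff, mem_singleton, mem_singleton] at he0
        exact ⟨mem_union_right _ he0.2.1.1, he0.2.1.2⟩
  have hcases : (A ∩ B).card = 0 ∨ (A ∩ B).card = 1 ∨ (A ∩ B).card = 2 := by omega
  rcases hcases with h | h | h
  · rw [card_eq_zero] at h
    have hd : Disjoint A B := disjoint_iff_inter_eq_empty.2 h
    refine two_disjoint hp clA clB hd ?_ (fun v hv => hone v hv (by rw [h]; simp))
    have := hc' ∅ (by rw [h]) (by simp) (by simp)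
    rw [card_empty, sdiff_empty, sdiff_empty] at this
    exact this
  · obtain ⟨u, hu⟩ := card_eq_one.1 h
    have huAB : u ∈ A ∩ B := by rw [hu]; simp
    rw [mem_inter] at huAB
    obtain ⟨c1, c2⟩ := hone u (mem_union_left _ huAB.1) (by rw [hu])
    refine state1 hp clA clB huAB.1 huAB.2 (bars H (A \ {u}) (B \ {u})) ?_ c1 c2
    intro k hk
    rw [mem_bars, mem_sdiff, mem_sdiff, mem_singleton, mem_singleton] at hk
    exact ⟨hk.1.1, hk.2.1.1, hk.1.2, hk.2.1.2, hk.2.2⟩
  · obtain ⟨u, w, huw, hu⟩ := card_eq_two.1 h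
    have huAB : u ∈ A ∩ B := by rw [hu]; simp
    have hwAB : w ∈ A ∩ B := by rw [hu]; simp
    rw [mem_inter] at huAB hwAB
    have e2 := hc' {u, w} (by rw [hu]) (by
      intro x hx
      simp only [mem_insert, mem_singleton] at hx
      rcases hx with rfl | rfl
      · exact mem_union_left _ huAB.1
      · exact mem_union_left _ hwAB.1) (by rw [card_pair huw])
    rw [card_pair huw] at e2
    have e2' : 0 < (bars H (A \ {u, w}) (B \ {u, w})).card := lt_of_lt_of_le (by decide) e2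
    rw [card_pos] at e2'
    obtain ⟨e, he⟩ := e2'
    rw [mem_bars, mem_sdiff, mem_sdiff] at he
    simp only [mem_insert, mem_singleton, not_or] at he
    exact state2 hp clA clB huAB.1 huAB.2 hwAB.1 hwAB.2 huw he.1.1 he.2.1.1 he.1.2.1 he.1.2.2
      he.2.1.2.1 he.2.1.2.2 he.2.2

/-- **Mixed connectivity.** For all partitions of the vertex set into `S`, `T`, `U` such that
`S ∪ U` and `T ∪ U` have at least three elements, there are at least `6`, `3` or `1` edges between
`S` and `T` if `U` has `0`, `1` or `2` elements. -/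
def Mixed (G : SimpleGraph V) : Prop :=
  ∀ S T U : Finset V, Disjoint S T → Disjoint S U → Disjoint T U → (∀ v, v ∈ S ∨ v ∈ T ∨ v ∈ U) →
    3 ≤ S.card + U.card → 3 ≤ T.card + U.card → (4 - U.card).choose 2 ≤ (bars G S T).card

theorem rigid_of_mixed (hp : Gen p) {G : SimpleGraph V} {A B : Finset V}
    (hA : RigidOn G (↑A : Set V) p) (hB : RigidOn G (↑B : Set V) p) (h3A : 3 ≤ A.card)
    (h3B : 3 ≤ B.card) (hAB : ∀ v, v ∈ A ∨ v ∈ B) (hM : Mixed G) :
    RigidOn G (↑(A ∪ B) : Set V) p := by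
  refine two_bodies hp hA hB ?_
  intro U hU1 hU2 _
  refine hM (A \ U) (B \ U) U ?_ sdiff_disjoint sdiff_disjoint ?_ ?_ ?_
  · rw [disjoint_left]
    intro x hx hx'
    rw [mem_sdiff] at hx hx'
    exact hx.2 (hU1 (mem_inter.2 ⟨hx.1, hx'.1⟩))
  · intro v
    simp only [mem_sdiff]
    have := hAB v
    tauto
  · have h := card_le_card_sdiff_add_card (s := A) (t := U)
    omega
  · have h := card_le_card_sdiff_add_card (s := B) (t := U)
    omega

/-! ### Necessity -/

open H789R5 in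
omit [DecidableEq V] in
/-- relative motions of two parts which are not blocked by the bars -/
theorem nec (hp : Gen p) {G : SimpleGraph V} (hG : RigidOn G Set.univ p) {S T U : Finset V}
    (hST : Disjoint S T) (hSU : Disjoint S U) (hTU : Disjoint T U)
    (hcov : ∀ v, v ∈ S ∨ v ∈ T ∨ v ∈ U) (h1 : 3 ≤ S.card + U.card) (h2 : 3 ≤ T.card + U.card)
    {X : Type} [AddCommGroup X] [Module ℝ X] [FiniteDimensional ℝ X]
    (φ : X →ₗ[ℝ] (TA.Sk 3 × (Fin 3 → ℝ))) (hφ : Function.Injective φ)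
    (hU : ∀ x, ∀ u ∈ U, TA.triv p (φ x) u = 0) :
    Module.finrank ℝ X ≤ (bars G S T).card := by
  classical
  by_contra hlt
  push Not at hlt
  let Ψ : X →ₗ[ℝ] ((bars G S T) → ℝ) :=
    { toFun := fun x e => (p e.1.1 - p e.1.2) ⬝ᵥ (TA.triv p (φ x) e.1.2)
      map_add' := by
        intro x y
        funext e
        simp only [map_add, Pi.add_apply, dotProduct_add]
      map_smul' := by
        intro c x
        funext e
        simp only [map_smul, Pi.smul_apply, dotProduct_smul, RingHom.id_apply] }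
  have hker : LinearMap.ker Ψ ≠ ⊥ := by
    apply LinearMap.ker_ne_bot_of_finrank_lt
    rw [Module.finrank_fintype_fun_eq_card, Fintype.card_coe]
    exact hlt
  obtain ⟨x, hx, hx0⟩ := (Submodule.ne_bot_iff _).1 hker
  rw [LinearMap.mem_ker] at hx
  have hbar : ∀ s ∈ S, ∀ t ∈ T, G.Adj s t → (p s - p t) ⬝ᵥ (TA.triv p (φ x) t) = 0 := by
    intro s hs t ht hst
    exact congrFun hx ⟨(s, t), mem_bars.2 ⟨hs, ht, hst⟩⟩
  obtain ⟨A, b, hA, hb⟩ := hG (fun v => if v ∈ T then TA.triv p (φ x) v else 0) (by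
    intro u _ v _ huv
    have key : ∀ u v, G.Adj u v → v ∈ T → (p u - p v) ⬝ᵥ
        ((if u ∈ T then TA.triv p (φ x) u else 0) - (if v ∈ T then TA.triv p (φ x) v else 0)) = 0 := by
      intro u v huv hv
      rw [if_pos hv]
      have hin : (p u - p v) ⬝ᵥ (TA.triv p (φ x) u - TA.triv p (φ x) v) = 0 := by
        have h1 : TA.triv p (φ x) u - TA.triv p (φ x) v =
            ((φ x).1 : Matrix (Fin 3) (Fin 3) ℝ) *ᵥ (p u - p v) := by
          simp only [TA.triv, LinearMap.coe_mk, AddHom.coe_mk, mulVec_sub]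
          abel
        rw [h1]
        exact TA.skew_dot (φ x).1.2 _
      by_cases hu : u ∈ T
      · rw [if_pos hu]
        exact hin
      · rw [if_neg hu]
        rcases hcov u with h | h | h
        · rw [zero_sub, dotProduct_neg, hbar u h v hv huv, neg_zero]
        · exact absurd h hu
        · rw [hU x u h] at hin
          exact hin
    by_cases hv : v ∈ T
    · exact key u v huv hv
    · by_cases hu : u ∈ T
      · have := key v u huv.symm hu
        rw [← neg_sub (p v), neg_dotProduct, ← neg_sub (if v ∈ T then TA.triv p (φ x) v else 0),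
          dotProduct_neg, neg_neg]
        exact this
      · rw [if_neg hu, if_neg hv]
        simp)
  -- the motion is trivial
  have hzero : ∀ v ∈ S ∪ U, A *ᵥ p v + b = (0 : Matrix (Fin 3) (Fin 3) ℝ) *ᵥ p v + 0 := by
    intro v hv
    rw [← hb v trivial, if_neg]
    · simp
    · intro hvT
      rcases mem_union.1 hv with h | h
      · exact disjoint_left.1 hST h hvT
      · exact disjoint_left.1 hTU hvT h
  obtain ⟨hA0, hb0⟩ := triv_unique hp (S := S ∪ U) (by
    rw [card_union_of_disjoint hSU]; exact h1) hA (by simp) hzero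
  have hzero2 : ∀ v ∈ T ∪ U, ((φ x).1 : Matrix (Fin 3) (Fin 3) ℝ) *ᵥ p v + (φ x).2 =
      (0 : Matrix (Fin 3) (Fin 3) ℝ) *ᵥ p v + 0 := by
    intro v hv
    have h3 : TA.triv p (φ x) v = 0 := by
      rcases mem_union.1 hv with h | h
      · have := hb v trivial
        rw [if_pos h, hA0, hb0] at this
        rw [this]
        simp
      · exact hU x v h
    simpa [TA.triv] using h3
  obtain ⟨hφ1, hφ2⟩ := triv_unique hp (S := T ∪ U) (by
    rw [card_union_of_disjoint hTU]; exact h2) (φ x).1.2 (by simp) hzero2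
  apply hx0
  apply hφ
  rw [map_zero]
  exact Prod.ext (Subtype.ext hφ1) hφ2

end Pool.Agent.TH912.Rig
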