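import Pool.Agent.TH912.Rig.Nec
import Pool.Agent.H283R2.DR.Count

/-!
# Graphs with independence number two and graphs of large minimum degree
-/

set_option autoImplicit false

namespace Pool.Agent.TH912.Rig

open Matrix Finset Pool.Agent.H283R2.DR

variable {V : Type} {p : V → Fin 3 → ℝ}

open Classical in
/-- maximal rigid sets -/
theorem max_rigid [Fintype V] (hp : Gen p) {G : SimpleGraph V} {C0 : Finset V}
    (h0 : RigidOn G (↑C0 : Set V) p) : ∃ C : Finset V, C0 ⊆ C ∧ RigidOn G (↑C : Set V) p ∧
      (∀ D : Finset V, C ⊆ D → RigidOn G (↑D : Set V) p → D = C) ∧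
      ∀ v ∉ C, ∀ N : Finset V, N ⊆ C → (∀ u ∈ N, G.Adj v u) → N.card ≤ 2 := by
  obtain ⟨C, hC, hmax⟩ := (univ.filter (fun C : Finset V => C0 ⊆ C ∧
    RigidOn G (↑C : Set V) p)).exists_max_image (fun C => C.card) ⟨C0, by simp [h0]⟩
  rw [mem_filter] at hC
  obtain ⟨-, hC1, hC2⟩ := hC
  have hm : ∀ D : Finset V, C ⊆ D → RigidOn G (↑D : Set V) p → D = C := by
    intro D hD hDr
    have := hmax D (mem_filter.2 ⟨mem_univ _, hC1.trans hD, hDr⟩)
    exact (eq_of_subset_of_card_le hD this).symm
  refine ⟨C, hC1, hC2, hm, ?_⟩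
  intro v hv N hN hadj
  by_contra hlt
  push Not at hlt
  have h1 := IL.extend hp G (↑C : Set V) hC2 v N hlt (fun u hu => hN hu) hadj
  have h2 := hm (insert v C) (subset_insert _ _) (by rw [coe_insert]; exact h1)
  exact hv (h2 ▸ mem_insert_self v C)

theorem rigid_univ_of [Fintype V] [DecidableEq V] {G : SimpleGraph V} {C : Finset V}
    (h : RigidOn G (↑C : Set V) p) (hC : ∀ v, v ∈ C) : RigidOn G Set.univ p :=
  rigid_of_set_eq h (Set.eq_univ_of_forall fun v => mem_coe.2 (hC v))

open Classical in
/-- a clique with five vertices -/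
theorem exists_clique [Fintype V] {G : SimpleGraph V} (hn : 21 ≤ Fintype.card V)
    (hα : ∀ u v w, u ≠ v → u ≠ w → v ≠ w → G.Adj u v ∨ G.Adj u w ∨ G.Adj v w) :
    ∃ K : Finset V, Cl G K ∧ 5 ≤ K.card := by
  obtain ⟨K, hK, hmax⟩ := (univ.filter (fun K : Finset V => Cl G K)).exists_max_image
    (fun K => K.card) ⟨∅, by simp [Cl]⟩
  rw [mem_filter] at hK
  refine ⟨K, hK.2, ?_⟩
  by_contra hlt
  push Not at hlt
  have hmax' : ∀ L : Finset V, Cl G L → L.card ≤ 4 := by
    intro L hL
    have := hmax L (mem_filter.2 ⟨mem_univ _, hL⟩)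
    omega
  have hnon : ∀ u : V, (univ.filter (fun v => v ≠ u ∧ ¬ G.Adj u v)).card ≤ 4 := by
    intro u
    apply hmax'
    intro a ha b hb hab
    rw [mem_filter] at ha hb
    rcases hα u a b ha.2.1.symm hb.2.1.symm hab with h | h | h
    · exact absurd h ha.2.2
    · exact absurd h hb.2.2
    · exact h
  have hsub : (univ : Finset V) ⊆ K ∪ K.biUnion
      (fun u => univ.filter (fun v => v ≠ u ∧ ¬ G.Adj u v)) := by
    intro v _
    rw [mem_union]
    by_cases hv : v ∈ K
    · exact Or.inl hv
    · right
      by_contra hcon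
      rw [mem_biUnion] at hcon
      push Not at hcon
      have hcl : Cl G (insert v K) := by
        have hadj : ∀ u ∈ K, G.Adj u v := by
          intro u hu
          have h1 := hcon u hu
          rw [mem_filter] at h1
          by_contra h2
          exact h1 ⟨mem_univ _, fun h => hv (h ▸ hu), h2⟩
        intro a ha b hb hab
        rw [mem_insert] at ha hb
        rcases ha with rfl | ha <;> rcases hb with rfl | hb
        · exact absurd rfl hab
        · exact (hadj b hb).symm
        · exact hadj a ha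
        · exact hK.2 a ha b hb hab
      have h1 := hmax _ (mem_filter.2 ⟨mem_univ _, hcl⟩)
      rw [card_insert_of_notMem hv] at h1
      omega
  have h1 := card_le_card hsub
  have h2 := card_union_le K (K.biUnion (fun u => univ.filter (fun v => v ≠ u ∧ ¬ G.Adj u v)))
  have h3 := card_biUnion_le_card_mul K (fun u => univ.filter (fun v => v ≠ u ∧ ¬ G.Adj u v)) 4
    (fun u _ => hnon u)
  rw [card_univ] at h1
  have h4 : K.card * 4 ≤ 16 := by omega
  omega

open Classical in
/-- **independence number at most two** -/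
theorem alpha_two [Fintype V] {G : SimpleGraph V} [DecidableRel G.Adj] (hn : 21 ≤ Fintype.card V)
    (hα : ∀ u v w, u ≠ v → u ≠ w → v ≠ w → G.Adj u v ∨ G.Adj u w ∨ G.Adj v w) :
    GenRigid 3 G ↔ (∀ v, 3 ≤ G.degree v) ∧ (∀ v w, G.Adj v w → 7 ≤ G.degree v + G.degree w) ∧
      Mixed G := by
  obtain ⟨p, hp⟩ := exists_gen V 3
  rw [hp.genRigid_iff]
  constructor
  · intro hG
    exact ⟨degree_ge hp hG (by omega), fun v w h => degree_add_ge hp hG (by omega) h,
      mixed_of_rigid hp hG⟩
  · rintro ⟨hd, hdd, hM⟩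
    obtain ⟨K, hK, hK5⟩ := exists_clique hn hα
    obtain ⟨C, hKC, hC, -, hCn'⟩ := max_rigid hp (clique_rigid hp hK)
    have hCn : ∀ v ∉ C, (C.filter (fun u => G.Adj v u)).card ≤ 2 := fun v hv =>
      hCn' v hv _ (filter_subset _ _) (fun u hu => (mem_filter.1 hu).2)
    have hC5 : 5 ≤ C.card := hK5.trans (card_le_card hKC)
    have hD : Cl G Cᶜ := by
      intro a ha b hb hab
      rw [mem_compl] at ha hb
      by_contra hnab
      have h1 := hCn a ha
      have h2 := hCn b hb
      obtain ⟨c, hc, hca⟩ : ∃ c ∈ C, c ∉ C.filter (fun u => G.Adj a u) ∪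
          C.filter (fun u => G.Adj b u) := by
        by_contra hcon
        push Not at hcon
        have h3 := card_le_card (show C ⊆ C.filter (fun u => G.Adj a u) ∪
          C.filter (fun u => G.Adj b u) from hcon)
        have h4 := card_union_le (C.filter (fun u => G.Adj a u)) (C.filter (fun u => G.Adj b u))
        omega
      rw [mem_union, mem_filter, mem_filter] at hca
      push Not at hca
      rcases hα a b c hab (fun h => ha (h ▸ hc)) (fun h => hb (h ▸ hc)) with h | h | h
      · exact hnab h
      · exact hca.1 hc h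
      · exact hca.2 hc h
    have hdeg : ∀ v ∈ Cᶜ, G.degree v ≤ (Cᶜ).card + 1 := by
      intro v hv
      have hv' := hv
      rw [mem_compl] at hv'
      have h1 := hCn v hv'
      have hsub : G.neighborFinset v ⊆ C.filter (fun u => G.Adj v u) ∪ (Cᶜ).erase v := by
        intro u hu
        rw [SimpleGraph.mem_neighborFinset] at hu
        rw [mem_union, mem_filter, mem_erase, mem_compl]
        by_cases h : u ∈ C
        · exact Or.inl ⟨h, hu⟩
        · exact Or.inr ⟨hu.ne', h⟩
      have h2 := card_le_card hsub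
      have h3 := card_union_le (C.filter (fun u => G.Adj v u)) ((Cᶜ).erase v)
      rw [card_erase_of_mem hv] at h3
      rw [SimpleGraph.card_neighborFinset_eq_degree] at h2
      have h4 : 0 < (Cᶜ).card := card_pos.2 ⟨v, hv⟩
      omega
    rcases Nat.lt_or_ge (Cᶜ).card 3 with h | h
    · have hc : (Cᶜ).card = 0 ∨ (Cᶜ).card = 1 ∨ (Cᶜ).card = 2 := by omega
      rcases hc with hc | hc | hc
      · rw [card_eq_zero] at hc
        refine rigid_univ_of hC ?_
        intro v
        by_contra hv
        have : v ∈ Cᶜ := mem_compl.2 hv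
        rw [hc] at this
        simp at this
      · exfalso
        obtain ⟨v, hv⟩ := card_eq_one.1 hc
        have h1 := hdeg v (by rw [hv]; simp)
        have h2 := hd v
        omega
      · exfalso
        obtain ⟨v, w, hvw, hvw'⟩ := card_eq_two.1 hc
        have m1 : v ∈ Cᶜ := by rw [hvw']; simp
        have m2 : w ∈ Cᶜ := by rw [hvw']; simp
        have h1 := hdeg v m1
        have h2 := hdeg w m2
        have h3 := hdd v w (hD v m1 w m2 hvw)
        omega
    · have h1 := rigid_of_mixed hp hC (clique_rigid hp hD) (by omega) h (fun v => by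
        rw [mem_compl]
        exact Classical.em _) hM
      exact rigid_univ_of h1 (fun v => by
        rw [mem_union, mem_compl]
        exact Classical.em _)

open Classical in
/-- a large rigid set among and around the neighbours of a vertex -/
theorem exists_large [Fintype V] (hp : Gen p) {G : SimpleGraph V} [DecidableRel G.Adj] {M : ℕ}
    (hn : 8 * 52 ^ 6 * (M + 12) ≤ Fintype.card V)
    (hδ : ∀ v, Fintype.card V ≤ 3 * G.degree v) (v : V) (C : Finset V)
    (hC : (C.filter (fun u => G.Adj v u)).card ≤ 2) :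
    ∃ R : Finset V, RigidOn G (↑R : Set V) p ∧ M ≤ R.card ∧ ¬ R ⊆ C := by
  set n := Fintype.card V with hnn
  -- common neighbours
  obtain ⟨Z, hZ6, hZv, hZc⟩ := exists_common G (n / 4) 0 6 52 (by norm_num)
    (by
      rw [Nat.le_zero, card_eq_zero, filter_eq_empty_iff]
      intro w _
      have := hδ w
      rw [not_lt]
      omega) (by omega) (by
        rw [← hnn]
        omega) v (by
        have := hδ v
        omega)
  set Y := univ.filter (fun y => ∀ z ∈ Z, G.Adj z y) with hY
  have hYc : M + 12 ≤ Y.card := by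
    by_contra hlt
    push Not at hlt
    have h1 : n / 4 < 2 * 52 ^ 6 * (M + 12) := by
      refine lt_of_le_of_lt hZc ?_
      have : (0 : ℕ) < 2 * 52 ^ 6 := by positivity
      exact Nat.mul_lt_mul_of_pos_left hlt this
    omega
  -- four of them outside `C`
  have h4 : 4 ≤ (Z \ C).card := by
    have h1 : Z ⊆ (Z \ C) ∪ C.filter (fun u => G.Adj v u) := by
      intro z hz
      rw [mem_union, mem_sdiff, mem_filter]
      by_cases h : z ∈ C
      · exact Or.inr ⟨h, (hZv z hz).symm⟩
      · exact Or.inl ⟨hz, h⟩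
    have h2 := card_le_card h1
    have h3 := card_union_le (Z \ C) (C.filter (fun u => G.Adj v u))
    omega
  obtain ⟨Z', hZ', hZ'c⟩ := exists_subset_card_eq h4
  refine ⟨Z' ∪ Y, ?_, ?_, ?_⟩
  · refine rigid_bipartite hp G Z' Y (by rw [hZ'c]) (by omega) ?_
    intro z hz y hy
    have h1 := hZ' hz
    rw [mem_sdiff] at h1
    rw [hY, mem_filter] at hy
    exact hy.2 z h1.1
  · have := card_le_card (subset_union_right : Y ⊆ Z' ∪ Y)
    omega
  · intro hsub
    obtain ⟨z, hz⟩ : Z'.Nonempty := by rw [← card_pos]; omega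
    have h1 := hZ' hz
    rw [mem_sdiff] at h1
    exact h1.2 (hsub (mem_union_left _ hz))

end Pool.Agent.TH912.Rig
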