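import Pool.Agent.TH912.Rig.Nec

/-!
# Three complete graphs joined by nine edges
-/

set_option autoImplicit false

namespace Pool.Agent.TH912.Rig

open Matrix Finset Pool.Agent.H283R2.DR

/-- the body which is not on the bar `j` -/
def om (j : Fin 9) : Fin 3 := ⟨j / 3, by omega⟩

/-- three complete graphs with `9 + r` vertices each, any two of them joined by three disjoint
edges -/
def ring (r : ℕ) : SimpleGraph (Fin 3 × (Fin 9 ⊕ Fin r)) where
  Adj x y := x ≠ y ∧ (x.1 = y.1 ∨
    ∃ j : Fin 9, x.2 = Sum.inl j ∧ y.2 = Sum.inl j ∧ x.1 ≠ om j ∧ y.1 ≠ om j)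
  symm := ⟨by
    rintro x y ⟨h, h'⟩
    refine ⟨h.symm, ?_⟩
    rcases h' with h' | ⟨j, h1, h2, h3, h4⟩
    · exact Or.inl h'.symm
    · exact Or.inr ⟨j, h2, h1, h4, h3⟩⟩
  loopless := ⟨fun _ h => h.1 rfl⟩

open Classical in
theorem ring_degree (r : ℕ) (v : Fin 3 × (Fin 9 ⊕ Fin r)) : 8 + r ≤ (ring r).degree v := by
  have hsub : ((univ : Finset (Fin 9 ⊕ Fin r)).erase v.2).image (fun y => (v.1, y)) ⊆
      (ring r).neighborFinset v := by
    intro x hx
    rw [mem_image] at hx
    obtain ⟨y, hy, rfl⟩ := hx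
    rw [SimpleGraph.mem_neighborFinset]
    refine ⟨?_, Or.inl rfl⟩
    intro h
    exact (ne_of_mem_erase hy) (congrArg Prod.snd h).symm
  have h := card_le_card hsub
  rw [card_image_of_injective _ (Prod.mk_right_injective v.1), card_erase_of_mem (mem_univ _),
    card_univ, Fintype.card_sum, Fintype.card_fin, Fintype.card_fin,
    SimpleGraph.card_neighborFinset_eq_degree] at h
  omega

theorem third : ∀ k w : Fin 3, k ≠ w → -(k + w) ≠ k ∧ -(k + w) ≠ w := by decide

theorem card_off : ∀ k : Fin 3, (univ.filter (fun j : Fin 9 => k ≠ om j)).card = 6 := by decide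

/-- one body against the two others -/
theorem ring_alone {r : ℕ} {S T U : Finset (Fin 3 × (Fin 9 ⊕ Fin r))} {k : Fin 3}
    (hk : ∀ y, (k, y) ∉ U → (k, y) ∈ S) (ho : ∀ i, i ≠ k → ∀ y, (i, y) ∉ U → (i, y) ∈ T) :
    6 ≤ (bars (ring r) S T).card + U.card := by
  classical
  set J := univ.filter (fun j : Fin 9 => k ≠ om j) with hJ
  set J' := J.filter (fun j => (Sum.inl j : Fin 9 ⊕ Fin r) ∉ U.image Prod.snd) with hJ'
  have h1 : J.card ≤ J'.card + U.card := by
    have h2 : J \ J' ⊆ J := sdiff_subset
    have h3 : (J \ J').card ≤ U.card := by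
      calc (J \ J').card = ((J \ J').image (Sum.inl : Fin 9 → Fin 9 ⊕ Fin r)).card :=
            (card_image_of_injective _ Sum.inl_injective).symm
        _ ≤ (U.image Prod.snd).card := by
            apply card_le_card
            intro x hx
            rw [mem_image] at hx
            obtain ⟨j, hj, rfl⟩ := hx
            rw [mem_sdiff] at hj
            by_contra hc
            apply hj.2
            rw [hJ', mem_filter]
            exact ⟨hj.1, hc⟩
        _ ≤ U.card := card_image_le
    have hJJ : J' ⊆ J := filter_subset _ _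
    have h4 := card_sdiff_add_card_eq_card hJJ
    omega
  have h2 : J'.card ≤ (bars (ring r) S T).card := by
    rw [← card_image_of_injective (f := fun j : Fin 9 =>
      (((k, Sum.inl j), (-(k + om j), Sum.inl j)) :
        (Fin 3 × (Fin 9 ⊕ Fin r)) × (Fin 3 × (Fin 9 ⊕ Fin r)))) J' (by
        intro a b hab
        simp only [Prod.mk.injEq, Sum.inl.injEq, true_and] at hab
        exact hab.1)]
    apply card_le_card
    intro e he
    rw [mem_image] at he
    obtain ⟨j, hj, rfl⟩ := he
    rw [hJ', mem_filter, hJ, mem_filter] at hj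
    obtain ⟨⟨-, hkj⟩, hjU⟩ := hj
    obtain ⟨t1, t2⟩ := third k (om j) hkj
    have hU : ∀ i, (i, (Sum.inl j : Fin 9 ⊕ Fin r)) ∉ U := by
      intro i hi
      exact hjU (mem_image.2 ⟨_, hi, rfl⟩)
    rw [mem_bars]
    refine ⟨hk _ (hU _), ho _ t1 _ (hU _), ?_, Or.inr ⟨j, rfl, rfl, hkj, t2⟩⟩
    intro h
    exact t1 (congrArg Prod.fst h).symm
  have h3 : J.card = 6 := card_off k
  omega

theorem bars_comm {V : Type} (G : SimpleGraph V) (S T : Finset V) :
    (bars G S T).card = (bars G T S).card := by
  classical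
  have h : ∀ S T, (bars G S T).card ≤ (bars G T S).card := by
    intro S T
    rw [← card_image_of_injective (bars G S T) Prod.swap_injective]
    apply card_le_card
    intro e he
    rw [mem_image] at he
    obtain ⟨f, hf, rfl⟩ := he
    rw [mem_bars] at *
    exact ⟨hf.2.1, hf.1, hf.2.2.symm⟩
  exact le_antisymm (h S T) (h T S)

theorem two_colors : ∀ c : Fin 3 → Bool, (∃ i, c i = true) → (∃ i, c i = false) →
    ∃ k, ∀ i, i ≠ k → c i ≠ c k := by decide

theorem ring_mixed (r : ℕ) : Mixed (ring r) := by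
  classical
  intro S T U hST hSU hTU hcov h1 h2
  rcases Nat.lt_or_ge U.card 3 with h | h
  swap
  · rw [Nat.choose_eq_zero_of_lt (by omega)]
    exact Nat.zero_le _
  -- the parts of the bodies
  set Q : Finset (Fin 3 × (Fin 9 ⊕ Fin r)) → Fin 3 → Finset (Fin 9 ⊕ Fin r) :=
    fun A i => univ.filter (fun y => (i, y) ∈ A) with hQ
  have hQc : ∀ i, 9 + r ≤ (Q S i).card + (Q T i).card + (Q U i).card := by
    intro i
    have hsub : (univ : Finset (Fin 9 ⊕ Fin r)) ⊆ Q S i ∪ Q T i ∪ Q U i := by
      intro y _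
      simp only [hQ, mem_union, mem_filter, mem_univ, true_and]
      have := hcov (i, y)
      tauto
    have e1 := card_le_card hsub
    have e2 := card_union_le (Q S i ∪ Q T i) (Q U i)
    have e3 := card_union_le (Q S i) (Q T i)
    rw [card_univ, Fintype.card_sum, Fintype.card_fin, Fintype.card_fin] at e1
    omega
  have hQU : ∀ i, (Q U i).card ≤ U.card := by
    intro i
    rw [← card_image_of_injective (Q U i) (Prod.mk_right_injective i)]
    apply card_le_card
    intro x hx
    rw [mem_image] at hx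
    obtain ⟨y, hy, rfl⟩ := hx
    rw [hQ, mem_filter] at hy
    exact hy.2
  have hneed : (4 - U.card).choose 2 ≤ 6 - U.card := by
    have hc : U.card = 0 ∨ U.card = 1 ∨ U.card = 2 := by omega
    rcases hc with hc | hc | hc <;> rw [hc] <;> decide
  by_cases hmix : ∃ i, (Q S i).Nonempty ∧ (Q T i).Nonempty
  · obtain ⟨i, hi1, hi2⟩ := hmix
    have hc1 := card_pos.2 hi1
    have hc2 := card_pos.2 hi2
    have e1 := hQc i
    have e2 := hQU i
    have h3 : (Q S i).card * (Q T i).card ≤ (bars (ring r) S T).card := by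
      rw [← card_product]
      rw [← card_image_of_injective (f := fun y : (Fin 9 ⊕ Fin r) × (Fin 9 ⊕ Fin r) =>
        (((i, y.1), (i, y.2)) : (Fin 3 × (Fin 9 ⊕ Fin r)) × (Fin 3 × (Fin 9 ⊕ Fin r))))
        (Q S i ×ˢ Q T i) (by
          intro a b hab
          simp only [Prod.mk.injEq, true_and] at hab
          exact Prod.ext hab.1 hab.2)]
      apply card_le_card
      intro e he
      rw [mem_image] at he
      obtain ⟨y, hy, rfl⟩ := he
      rw [mem_product, hQ, mem_filter, mem_filter] at hy
      rw [mem_bars]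
      refine ⟨hy.1.2, hy.2.2, ?_, Or.inl rfl⟩
      intro h
      have h' : ((i, y.1) : Fin 3 × (Fin 9 ⊕ Fin r)) = (i, y.2) := h
      have h'' := hy.1.2
      rw [h'] at h''
      exact disjoint_left.1 hST h'' hy.2.2
    have h4 : (Q S i).card + (Q T i).card ≤ (Q S i).card * (Q T i).card + 1 := by
      obtain ⟨a, ha⟩ := Nat.exists_eq_add_of_le hc1
      obtain ⟨b, hb⟩ := Nat.exists_eq_add_of_le hc2
      rw [ha, hb]
      nlinarith [Nat.zero_le (a * b)]
    omega
  · push Not at hmix
    -- colours
    have hne : ∀ i, (Q S i).Nonempty ∨ (Q T i).Nonempty := by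
      intro i
      by_contra hc
      push Not at hc
      have e1 := hQc i
      have e2 := hQU i
      rw [hc.1, hc.2, card_empty] at e1
      omega
    set c : Fin 3 → Bool := fun i => decide (Q S i).Nonempty with hc
    have hcS : ∀ i, c i = true → ∀ y, (i, y) ∉ U → (i, y) ∈ S := by
      intro i hi y hy
      rw [hc] at hi
      have hi' : (Q S i).Nonempty := by simpa using hi
      have hT := hmix i hi'
      rcases hcov (i, y) with h | h | h
      · exact h
      · exfalso
        have : y ∈ Q T i := by rw [hQ, mem_filter]; exact ⟨mem_univ _, h⟩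
        rw [hT] at this
        simp at this
      · exact absurd h hy
    have hcT : ∀ i, c i = false → ∀ y, (i, y) ∉ U → (i, y) ∈ T := by
      intro i hi y hy
      rw [hc] at hi
      have hi' : ¬ (Q S i).Nonempty := by simpa using hi
      rcases hcov (i, y) with h | h | h
      · exfalso
        exact hi' ⟨y, by rw [hQ, mem_filter]; exact ⟨mem_univ _, h⟩⟩
      · exact h
      · exact absurd h hy
    have hS0 : ∃ i, c i = true := by
      have : 0 < S.card := by omega
      rw [card_pos] at this
      obtain ⟨x, hx⟩ := this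
      refine ⟨x.1, ?_⟩
      rw [hc]
      have : (Q S x.1).Nonempty := ⟨x.2, by rw [hQ, mem_filter]; exact ⟨mem_univ _, hx⟩⟩
      simpa using this
    have hT0 : ∃ i, c i = false := by
      have : 0 < T.card := by omega
      rw [card_pos] at this
      obtain ⟨x, hx⟩ := this
      refine ⟨x.1, ?_⟩
      by_contra hc'
      rw [Bool.not_eq_false] at hc'
      rw [hc] at hc'
      have h3 : (Q S x.1).Nonempty := by simpa using hc'
      have h4 := hmix x.1 h3
      have : x.2 ∈ Q T x.1 := by rw [hQ, mem_filter]; exact ⟨mem_univ _, hx⟩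
      rw [h4] at this
      simp at this
    obtain ⟨k, hk⟩ := two_colors c hS0 hT0
    cases hck : c k with
    | true =>
      have h3 := ring_alone (hcS k hck) (fun i hi => hcT i (by
        have := hk i hi
        rw [hck] at this
        simpa using this))
      omega
    | false =>
      have h3 := ring_alone (hcT k hck) (fun i hi => hcS i (by
        have := hk i hi
        rw [hck] at this
        simpa using this))
      rw [bars_comm] at h3
      omega

/-- the motions of the three bodies, the first one being fixed -/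
def ringMot {r : ℕ} (p : Fin 3 × (Fin 9 ⊕ Fin r) → Fin 3 → ℝ) :
    ((TA.Sk 3 × (Fin 3 → ℝ)) × (TA.Sk 3 × (Fin 3 → ℝ))) →ₗ[ℝ]
      (Fin 3 × (Fin 9 ⊕ Fin r) → Fin 3 → ℝ) where
  toFun x v := if v.1 = 0 then 0 else if v.1 = 1 then TA.triv p x.1 v else TA.triv p x.2 v
  map_add' := by
    intro x y
    funext v
    simp only [Prod.fst_add, Prod.snd_add, map_add, Pi.add_apply]
    split_ifs <;> simp
  map_smul' := by
    intro c x
    funext v
    simp only [Prod.smul_fst, Prod.smul_snd, map_smul, Pi.smul_apply, RingHom.id_apply]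
    split_ifs <;> simp

theorem triv_edge {V : Type} (p : V → Fin 3 → ℝ) (x : TA.Sk 3 × (Fin 3 → ℝ)) (u v : V) :
    (p u - p v) ⬝ᵥ (TA.triv p x u - TA.triv p x v) = 0 := by
  have h1 : TA.triv p x u - TA.triv p x v =
      (x.1 : Matrix (Fin 3) (Fin 3) ℝ) *ᵥ (p u - p v) := by
    simp only [TA.triv, LinearMap.coe_mk, AddHom.coe_mk, mulVec_sub]
    abel
  rw [h1]
  exact TA.skew_dot x.1.2 _

theorem ring_not_rigid (r : ℕ) : ¬ GenRigid 3 (ring r) := by
  classical
  obtain ⟨p, hp⟩ := exists_gen (Fin 3 × (Fin 9 ⊕ Fin r)) 3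
  rw [hp.genRigid_iff]
  intro hG
  -- the two ends of a bar
  let ea : Fin 9 → Fin 3 := fun j => om j + 1
  let eb : Fin 9 → Fin 3 := fun j => om j + 2
  let Ψ : ((TA.Sk 3 × (Fin 3 → ℝ)) × (TA.Sk 3 × (Fin 3 → ℝ))) →ₗ[ℝ] (Fin 9 → ℝ) :=
    { toFun := fun x j => (p (ea j, Sum.inl j) - p (eb j, Sum.inl j)) ⬝ᵥ
        (ringMot p x (ea j, Sum.inl j) - ringMot p x (eb j, Sum.inl j))
      map_add' := by
        intro x y
        funext j
        simp only [map_add, Pi.add_apply]
        rw [← dotProduct_add]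
        congr 1
        abel
      map_smul' := by
        intro c x
        funext j
        simp only [map_smul, Pi.smul_apply, RingHom.id_apply]
        rw [← smul_sub, dotProduct_smul] }
  have hker : LinearMap.ker Ψ ≠ ⊥ := by
    apply LinearMap.ker_ne_bot_of_finrank_lt
    rw [Module.finrank_fintype_fun_eq_card, Fintype.card_fin, Module.finrank_prod,
      H789R5.finrank_triv]
    norm_num
  obtain ⟨x, hx, hx0⟩ := (Submodule.ne_bot_iff _).1 hker
  rw [LinearMap.mem_ker] at hx
  have hsym : ∀ a b, (p a - p b) ⬝ᵥ (ringMot p x a - ringMot p x b) =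
      (p b - p a) ⬝ᵥ (ringMot p x b - ringMot p x a) := by
    intro a b
    rw [← neg_sub (p b), ← neg_sub (ringMot p x b), neg_dotProduct_neg]
  have hbar : ∀ j : Fin 9, (p (ea j, Sum.inl j) - p (eb j, Sum.inl j)) ⬝ᵥ
        (ringMot p x (ea j, Sum.inl j) - ringMot p x (eb j, Sum.inl j)) = 0 :=
    fun j => congrFun hx j
  have hfin : ∀ i i' w : Fin 3, i ≠ i' → i ≠ w → i' ≠ w →
      (i = w + 1 ∧ i' = w + 2) ∨ (i = w + 2 ∧ i' = w + 1) := by decide
  obtain ⟨A, b, hA, hb⟩ := hG (ringMot p x) (by
    intro u _ v _ huv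
    obtain ⟨hne, huv⟩ := huv
    rcases huv with huv | ⟨j, h1, h2, h3, h4⟩
    · -- inside a body
      by_cases h0 : u.1 = 0
      · have h0' : v.1 = 0 := huv ▸ h0
        simp only [ringMot, LinearMap.coe_mk, AddHom.coe_mk, h0, h0', if_true]
        simp
      · have h0' : v.1 ≠ 0 := huv ▸ h0
        by_cases h1 : u.1 = 1
        · have h1' : v.1 = 1 := huv ▸ h1
          have e1 : ringMot p x u = TA.triv p x.1 u := by
            simp only [ringMot, LinearMap.coe_mk, AddHom.coe_mk]
            rw [if_neg h0, if_pos h1]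
          have e2 : ringMot p x v = TA.triv p x.1 v := by
            simp only [ringMot, LinearMap.coe_mk, AddHom.coe_mk]
            rw [if_neg h0', if_pos h1']
          rw [e1, e2]
          exact triv_edge p x.1 u v
        · have h1' : v.1 ≠ 1 := huv ▸ h1
          have e1 : ringMot p x u = TA.triv p x.2 u := by
            simp only [ringMot, LinearMap.coe_mk, AddHom.coe_mk]
            rw [if_neg h0, if_neg h1]
          have e2 : ringMot p x v = TA.triv p x.2 v := by
            simp only [ringMot, LinearMap.coe_mk, AddHom.coe_mk]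
            rw [if_neg h0', if_neg h1']
          rw [e1, e2]
          exact triv_edge p x.2 u v
    · -- a bar
      obtain ⟨u1, u2⟩ := u
      obtain ⟨v1, v2⟩ := v
      dsimp only at h1 h2 h3 h4
      subst h1 h2
      have hne' : u1 ≠ v1 := fun h => hne (by rw [h])
      rcases hfin u1 v1 (om j) hne' h3 h4 with ⟨rfl, rfl⟩ | ⟨rfl, rfl⟩
      · exact hbar j
      · rw [hsym]
        exact hbar j)
  -- the motion vanishes on the first body, so it is zero
  have hcard : ∀ i : Fin 3, 3 ≤ (univ.image
      (fun y : Fin 9 ⊕ Fin r => ((i, y) : Fin 3 × (Fin 9 ⊕ Fin r)))).card := by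
    intro i
    rw [card_image_of_injective _ (Prod.mk_right_injective i), card_univ, Fintype.card_sum,
      Fintype.card_fin, Fintype.card_fin]
    omega
  obtain ⟨hA0, hb0⟩ := triv_unique hp (A' := 0) (b' := 0) (hcard 0) hA (by simp) (by
    intro v hv
    rw [mem_image] at hv
    obtain ⟨y, -, rfl⟩ := hv
    rw [← hb _ trivial]
    simp [ringMot])
  have hz : ∀ v, ringMot p x v = 0 := by
    intro v
    rw [hb v trivial, hA0, hb0]
    simp
  obtain ⟨hφ1, hφ2⟩ := triv_unique hp (A' := 0) (b' := 0) (hcard 1) x.1.1.2 (by simp) (by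
    intro v hv
    rw [mem_image] at hv
    obtain ⟨y, -, rfl⟩ := hv
    have h3 : TA.triv p x.1 (1, y) = 0 := by
      rw [← hz (1, y)]
      simp [ringMot]
    have h4 : ((x.1.1 : Matrix (Fin 3) (Fin 3) ℝ) *ᵥ p (1, y) + x.1.2) = 0 := h3
    rw [h4]
    simp)
  obtain ⟨hφ3, hφ4⟩ := triv_unique hp (A' := 0) (b' := 0) (hcard 2) x.2.1.2 (by simp) (by
    intro v hv
    rw [mem_image] at hv
    obtain ⟨y, -, rfl⟩ := hv
    have h3 : TA.triv p x.2 (2, y) = 0 := by
      rw [← hz (2, y)]
      simp [ringMot]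
    have h4 : ((x.2.1 : Matrix (Fin 3) (Fin 3) ℝ) *ᵥ p (2, y) + x.2.2) = 0 := h3
    rw [h4]
    simp)
  apply hx0
  exact Prod.ext (Prod.ext (Subtype.ext hφ1) hφ2) (Prod.ext (Subtype.ext hφ3) hφ4)

end Pool.Agent.TH912.Rig
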