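import Pool.Agent.TH912.Rig.Dense
import Pool.Agent.TH912.Rig.Sharp

/-!
# The two-part condition
-/

set_option autoImplicit false

namespace Pool.Agent.TH912.Rig

open Matrix Finset Pool.Agent.H283R2.DR

variable {V : Type} {p : V → Fin 3 → ℝ}

/-- the rank of the complete graph with `k` vertices in the generic rigidity matroid of `ℝ³` -/
def rk (k : ℕ) : ℕ := if k ≤ 1 then 0 else if k = 2 then 1 else 3 * k - 6

/-- **The two-part condition.** For all partitions of the vertex set into `S`, `T`, `U` (parts may
be empty) the number of edges between `S` and `T` plus the ranks of the complete graphs on `S ∪ U`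
and on `T ∪ U` minus the rank of the complete graph on `U` is at least `3 n - 6`. -/
def TwoPart [Fintype V] (G : SimpleGraph V) : Prop :=
  ∀ S T U : Finset V, Disjoint S T → Disjoint S U → Disjoint T U → (∀ v, v ∈ S ∨ v ∈ T ∨ v ∈ U) →
    3 * Fintype.card V + rk U.card ≤
      (bars G S T).card + rk (S.card + U.card) + rk (T.card + U.card) + 6

theorem card_parts [Fintype V] {S T U : Finset V} (hST : Disjoint S T) (hSU : Disjoint S U)
    (hTU : Disjoint T U) (hcov : ∀ v, v ∈ S ∨ v ∈ T ∨ v ∈ U) :
    S.card + T.card + U.card = Fintype.card V := by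
  classical
  rw [← card_univ, ← card_union_of_disjoint hST, ← card_union_of_disjoint]
  · congr 1
    ext v
    simp only [mem_union, mem_univ, iff_true]
    have := hcov v
    tauto
  · rw [disjoint_union_left]
    exact ⟨hSU, hTU⟩

theorem rk_big {k : ℕ} (h : 3 ≤ k) : rk k = 3 * k - 6 := by
  unfold rk
  rw [if_neg (by omega), if_neg (by omega)]

theorem mixed_of_twoPart [Fintype V] {G : SimpleGraph V} (h : TwoPart G) : Mixed G := by
  intro S T U hST hSU hTU hcov h1 h2
  have e1 := h S T U hST hSU hTU hcov
  have e2 := card_parts hST hSU hTU hcov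
  rw [rk_big h1, rk_big h2] at e1
  rcases Nat.lt_or_ge U.card 3 with h3 | h3
  · have hc : U.card = 0 ∨ U.card = 1 ∨ U.card = 2 := by omega
    rcases hc with hc | hc | hc
    · rw [hc] at e1 e2 h1 h2 ⊢
      have : rk 0 = 0 := rfl
      rw [this] at e1
      have : (4 - 0).choose 2 = 6 := rfl
      omega
    · rw [hc] at e1 e2 h1 h2 ⊢
      have : rk 1 = 0 := rfl
      rw [this] at e1
      have : (4 - 1).choose 2 = 3 := rfl
      omega
    · rw [hc] at e1 e2 h1 h2 ⊢
      have : rk 2 = 1 := rfl
      rw [this] at e1
      have : (4 - 2).choose 2 = 1 := rfl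
      omega
  · rw [Nat.choose_eq_zero_of_lt (by omega)]
    exact Nat.zero_le _

open Classical in
theorem bars_pair_le [Fintype V] {G : SimpleGraph V} [DecidableRel G.Adj] {v w : V}
    {T : Finset V} (hvw : G.Adj v w) (hvT : v ∉ T) (hwT : w ∉ T) :
    (bars G {v, w} T).card + 2 ≤ G.degree v + G.degree w := by
  have hsub : bars G {v, w} T ⊆ (((G.neighborFinset v).erase w).image (fun u => (v, u))) ∪
      (((G.neighborFinset w).erase v).image (fun u => (w, u))) := by
    intro e he
    rw [mem_bars, mem_insert, mem_singleton] at he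
    obtain ⟨h1, h2, h3⟩ := he
    rw [mem_union, mem_image, mem_image]
    rcases h1 with h1 | h1
    · left
      refine ⟨e.2, ?_, ?_⟩
      · rw [mem_erase, SimpleGraph.mem_neighborFinset, ← h1]
        exact ⟨fun h => hwT (h ▸ h2), h3⟩
      · rw [← h1]
    · right
      refine ⟨e.2, ?_, ?_⟩
      · rw [mem_erase, SimpleGraph.mem_neighborFinset, ← h1]
        exact ⟨fun h => hvT (h ▸ h2), h3⟩
      · rw [← h1]
  have h1 := card_le_card hsub
  have h2 := card_union_le (((G.neighborFinset v).erase w).image (fun u => (v, u)))
      (((G.neighborFinset w).erase v).image (fun u => (w, u)))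
  rw [card_image_of_injective _ (Prod.mk_right_injective v),
    card_image_of_injective _ (Prod.mk_right_injective w),
    card_erase_of_mem (by simpa using hvw), card_erase_of_mem (by simpa using hvw.symm),
    SimpleGraph.card_neighborFinset_eq_degree, SimpleGraph.card_neighborFinset_eq_degree] at h2
  have h3 : 0 < G.degree v := by
    rw [SimpleGraph.degree_pos_iff_exists_adj]
    exact ⟨w, hvw⟩
  have h4 : 0 < G.degree w := by
    rw [SimpleGraph.degree_pos_iff_exists_adj]
    exact ⟨v, hvw.symm⟩
  omega

open Classical in
theorem bars_single_le [Fintype V] {G : SimpleGraph V} [DecidableRel G.Adj] {v : V}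
    {T : Finset V} : (bars G {v} T).card ≤ G.degree v := by
  rw [← SimpleGraph.card_neighborFinset_eq_degree,
    ← card_image_of_injective (G.neighborFinset v) (Prod.mk_right_injective v)]
  apply card_le_card
  intro e he
  rw [mem_bars, mem_singleton] at he
  obtain ⟨h1, h2, h3⟩ := he
  rw [mem_image]
  refine ⟨e.2, ?_, ?_⟩
  · rw [SimpleGraph.mem_neighborFinset, ← h1]
    exact h3
  · rw [← h1]

open Classical in
theorem deg_of_twoPart [Fintype V] {G : SimpleGraph V} [DecidableRel G.Adj]
    (h5 : 5 ≤ Fintype.card V) (h : TwoPart G) :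
    (∀ v, 3 ≤ G.degree v) ∧ (∀ v w, G.Adj v w → 7 ≤ G.degree v + G.degree w) := by
  constructor
  · intro v
    have e1 := h {v} (univ.erase v) ∅ (by simp) (by simp) (by simp) (by
      intro u
      rw [mem_singleton, mem_erase]
      by_cases hu : u = v
      · exact Or.inl hu
      · exact Or.inr (Or.inl ⟨hu, mem_univ u⟩))
    have e2 := bars_single_le (G := G) (v := v) (T := univ.erase v)
    rw [card_erase_of_mem (mem_univ v), card_univ, card_empty, card_singleton] at e1
    rw [rk_big (k := Fintype.card V - 1 + 0) (by omega)] at e1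
    have e3 : rk 0 = 0 := rfl
    have e4 : rk (1 + 0) = 0 := rfl
    omega
  · intro v w hvw
    have e1 := h {v, w} ((univ.erase v).erase w) ∅ (by
      rw [disjoint_left]
      intro u hu hu'
      simp only [mem_insert, mem_singleton, mem_erase] at hu hu'
      tauto) (by simp) (by simp) (by
      intro u
      simp only [mem_insert, mem_singleton, mem_erase, mem_univ, and_true]
      tauto)
    have e2 := bars_pair_le (G := G) (T := (univ.erase v).erase w) hvw (by simp) (by simp)
    rw [card_erase_of_mem (mem_erase.2 ⟨hvw.ne', mem_univ w⟩), card_erase_of_mem (mem_univ v),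
      card_univ, card_empty, card_pair hvw.ne] at e1
    rw [rk_big (k := Fintype.card V - 1 - 1 + 0) (by omega)] at e1
    have e3 : rk 0 = 0 := rfl
    have e4 : rk (2 + 0) = 1 := rfl
    omega

open Classical in
theorem deg_le_bars [Fintype V] {G : SimpleGraph V} [DecidableRel G.Adj] {v : V} {T U : Finset V}
    (hcov : ∀ u, u ≠ v → u ∈ T ∨ u ∈ U) : G.degree v ≤ (bars G {v} T).card + U.card := by
  have hsub : G.neighborFinset v ⊆ (bars G {v} T).image Prod.snd ∪ U := by
    intro u hu
    rw [SimpleGraph.mem_neighborFinset] at hu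
    rw [mem_union]
    rcases hcov u hu.ne' with h | h
    · exact Or.inl (mem_image.2 ⟨(v, u), mem_bars.2 ⟨by simp, h, hu⟩, rfl⟩)
    · exact Or.inr h
  have h1 := card_le_card hsub
  have h2 := card_union_le ((bars G {v} T).image Prod.snd) U
  have h3 := card_image_le (s := bars G {v} T) (f := Prod.snd)
  rw [SimpleGraph.card_neighborFinset_eq_degree] at h1
  omega

open Classical in
theorem deg_pair_le_bars [Fintype V] {G : SimpleGraph V} [DecidableRel G.Adj] {v w : V}
    {T : Finset V} (hvw : v ≠ w) (hcov : ∀ u, u ≠ v → u ≠ w → u ∈ T) :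
    G.degree v + G.degree w ≤ (bars G {v, w} T).card + (if G.Adj v w then 2 else 0) := by
  have h1 := deg_le_bars (G := G) (v := v) (T := T) (U := if G.Adj v w then {w} else ∅)
  have h2 := deg_le_bars (G := G) (v := w) (T := T) (U := if G.Adj v w then {v} else ∅)
  have h3 : (bars G {v} T).card + (bars G {w} T).card = (bars G {v, w} T).card := by
    rw [← card_union_of_disjoint]
    · congr 1
      ext e
      simp only [mem_union, mem_bars, mem_singleton, mem_insert]
      tauto
    · rw [disjoint_left]
      intro e he he'
      rw [mem_bars, mem_singleton] at he he'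
      exact hvw (he.1.symm.trans he'.1)
  by_cases hadj : G.Adj v w
  · simp only [hadj, if_true] at h1 h2 ⊢
    have h1' := h1 (fun u hu => by
      by_cases h : u = w
      · exact Or.inr (by simp [h])
      · exact Or.inl (hcov u hu h))
    have h2' := h2 (fun u hu => by
      by_cases h : u = v
      · exact Or.inr (by simp [h])
      · exact Or.inl (hcov u h hu))
    rw [card_singleton] at h1' h2'
    omega
  · simp only [hadj, if_false] at h1 h2 ⊢
    -- the neighbours
    have k1 : G.degree v ≤ (bars G {v} T).card := by
      have hsub : G.neighborFinset v ⊆ (bars G {v} T).image Prod.snd := by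
        intro u hu
        rw [SimpleGraph.mem_neighborFinset] at hu
        have huw : u ≠ w := fun h => hadj (h ▸ hu)
        exact mem_image.2 ⟨(v, u), mem_bars.2 ⟨by simp, hcov u hu.ne' huw, hu⟩, rfl⟩
      have := (card_le_card hsub).trans card_image_le
      rwa [SimpleGraph.card_neighborFinset_eq_degree] at this
    have k2 : G.degree w ≤ (bars G {w} T).card := by
      have hsub : G.neighborFinset w ⊆ (bars G {w} T).image Prod.snd := by
        intro u hu
        rw [SimpleGraph.mem_neighborFinset] at hu
        have huv : u ≠ v := fun h => hadj (h ▸ hu).symm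
        exact mem_image.2 ⟨(w, u), mem_bars.2 ⟨by simp, hcov u huv hu.ne', hu⟩, rfl⟩
      have := (card_le_card hsub).trans card_image_le
      rwa [SimpleGraph.card_neighborFinset_eq_degree] at this
    omega

open Classical in
theorem twoPart_of [Fintype V] {G : SimpleGraph V} [DecidableRel G.Adj]
    (h5 : 5 ≤ Fintype.card V) (hd : ∀ v, 3 ≤ G.degree v)
    (hdd : ∀ v w, G.Adj v w → 7 ≤ G.degree v + G.degree w) (hM : Mixed G) : TwoPart G := by
  -- the case of a small part
  have small : ∀ S T U : Finset V, Disjoint S T → Disjoint S U → Disjoint T U →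
      (∀ v, v ∈ S ∨ v ∈ T ∨ v ∈ U) → S.card + U.card ≤ 2 →
      3 * Fintype.card V + rk U.card ≤
      (bars G S T).card + rk (S.card + U.card) + rk (T.card + U.card) + 6 := by
    intro S T U hST hSU hTU hcov h2
    have e2 := card_parts hST hSU hTU hcov
    rw [rk_big (k := T.card + U.card) (by omega)]
    have hc : S.card = 0 ∨ (S.card = 1 ∧ U.card = 0) ∨ (S.card = 1 ∧ U.card = 1) ∨
      (S.card = 2 ∧ U.card = 0) := by omega
    rcases hc with hc | ⟨hc, hu⟩ | ⟨hc, hu⟩ | ⟨hc, hu⟩
    · rw [hc, Nat.zero_add]
      omega
    · obtain ⟨v, rfl⟩ := card_eq_one.1 hc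
      rw [card_eq_zero] at hu
      subst hu
      have h3 := deg_le_bars (G := G) (v := v) (T := T) (U := ∅) (fun u hu => by
        rcases hcov u with h | h | h
        · exact absurd (mem_singleton.1 h) hu
        · exact Or.inl h
        · exact Or.inr h)
      have h4 := hd v
      rw [card_empty] at *
      rw [card_singleton] at *
      have e3 : rk 0 = 0 := rfl
      have e4 : rk (1 + 0) = 0 := rfl
      omega
    · obtain ⟨v, rfl⟩ := card_eq_one.1 hc
      have h3 := deg_le_bars (G := G) (v := v) (T := T) (U := U) (fun u hu => by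
        rcases hcov u with h | h | h
        · exact absurd (mem_singleton.1 h) hu
        · exact Or.inl h
        · exact Or.inr h)
      have h4 := hd v
      rw [hu] at *
      rw [card_singleton] at *
      have e3 : rk 1 = 0 := rfl
      have e4 : rk (1 + 1) = 1 := rfl
      omega
    · obtain ⟨v, w, hvw, rfl⟩ := card_eq_two.1 hc
      rw [card_eq_zero] at hu
      subst hu
      have h3 := deg_pair_le_bars (G := G) (T := T) hvw (fun u hu1 hu2 => by
        rcases hcov u with h | h | h
        · rw [mem_insert, mem_singleton] at h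
          tauto
        · exact h
        · simp at h)
      have h4 := hd v
      have h5 := hd w
      rw [card_empty] at *
      rw [card_pair hvw] at *
      have e3 : rk 0 = 0 := rfl
      have e4 : rk (2 + 0) = 1 := rfl
      by_cases hadj : G.Adj v w
      · have h6 := hdd v w hadj
        rw [if_pos hadj] at h3
        omega
      · rw [if_neg hadj] at h3
        omega
  intro S T U hST hSU hTU hcov
  rcases Nat.lt_or_ge (S.card + U.card) 3 with h1 | h1
  · exact small S T U hST hSU hTU hcov (by omega)
  rcases Nat.lt_or_ge (T.card + U.card) 3 with h2 | h2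
  · have h3 := small T S U hST.symm hTU hSU (fun v => by
      rcases hcov v with h | h | h
      · exact Or.inr (Or.inl h)
      · exact Or.inl h
      · exact Or.inr (Or.inr h)) (by omega)
    rw [bars_comm] at h3
    omega
  have e2 := card_parts hST hSU hTU hcov
  have e1 := hM S T U hST hSU hTU hcov h1 h2
  rw [rk_big h1, rk_big h2]
  rcases Nat.lt_or_ge U.card 3 with h3 | h3
  · have hc : U.card = 0 ∨ U.card = 1 ∨ U.card = 2 := by omega
    rcases hc with hc | hc | hc
    · rw [hc] at e1 e2 h1 h2 ⊢
      have : rk 0 = 0 := rfl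
      have : (4 - 0).choose 2 = 6 := rfl
      omega
    · rw [hc] at e1 e2 h1 h2 ⊢
      have : rk 1 = 0 := rfl
      have : (4 - 1).choose 2 = 3 := rfl
      omega
    · rw [hc] at e1 e2 h1 h2 ⊢
      have : rk 2 = 1 := rfl
      have : (4 - 2).choose 2 = 1 := rfl
      omega
  · rw [rk_big h3]
    omega

open Classical in
/-- the two-part condition is necessary -/
theorem twoPart_of_rigid [Fintype V] {G : SimpleGraph V} (h5 : 5 ≤ Fintype.card V)
    (hG : GenRigid 3 G) : TwoPart G := by
  obtain ⟨p, hp⟩ := exists_gen V 3
  rw [hp.genRigid_iff] at hG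
  exact twoPart_of h5 (degree_ge hp hG (by omega)) (fun v w h => degree_add_ge hp hG h5 h)
    (mixed_of_rigid hp hG)

open Classical in
theorem ring_twoPart (r : ℕ) : TwoPart (ring r) := by
  refine twoPart_of ?_ ?_ ?_ (ring_mixed r)
  · rw [Fintype.card_prod, Fintype.card_sum, Fintype.card_fin, Fintype.card_fin, Fintype.card_fin]
    omega
  · intro v
    have := ring_degree r v
    omega
  · intro v w _
    have h1 := ring_degree r v
    have h2 := ring_degree r w
    omega

end Pool.Agent.TH912.Rig
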