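import Pool.Agent.TH912.Rig.Classes

/-!
# Graphs of minimum degree above a third of the number of vertices
-/

set_option autoImplicit false

namespace Pool.Agent.TH912.Rig

open Matrix Finset Pool.Agent.H283R2.DR

variable {V : Type} {p : V → Fin 3 → ℝ}

open Classical in
/-- degrees and the edges that leave a set -/
theorem sum_degree_le [Fintype V] {G : SimpleGraph V} [DecidableRel G.Adj] {C : Finset V}
    (hC : ∀ v ∉ C, (C.filter (fun u => G.Adj v u)).card ≤ 2) :
    ∑ v ∈ C, G.degree v ≤ C.card * C.card + 2 * Fintype.card V := by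
  have h1 : ∀ v, G.degree v = (C.filter (fun u => G.Adj v u)).card +
      ((Cᶜ).filter (fun u => G.Adj v u)).card := by
    intro v
    rw [← SimpleGraph.card_neighborFinset_eq_degree, ← card_union_of_disjoint]
    · congr 1
      ext u
      rw [SimpleGraph.mem_neighborFinset, mem_union, mem_filter, mem_filter, mem_compl]
      tauto
    · rw [disjoint_left]
      intro u hu hu'
      rw [mem_filter] at hu hu'
      exact (mem_compl.1 hu'.1) hu.1
  have h2 : ∑ v ∈ C, ((Cᶜ).filter (fun u => G.Adj v u)).card =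
      ∑ u ∈ Cᶜ, (C.filter (fun v => G.Adj u v)).card := by
    simp only [card_filter]
    rw [sum_comm]
    refine sum_congr rfl fun u _ => sum_congr rfl fun v _ => ?_
    simp only [G.adj_comm]
  have h3 : ∑ u ∈ Cᶜ, (C.filter (fun v => G.Adj u v)).card ≤ 2 * Fintype.card V := by
    calc ∑ u ∈ Cᶜ, (C.filter (fun v => G.Adj u v)).card ≤ ∑ u ∈ Cᶜ, 2 :=
          sum_le_sum fun u hu => hC u (mem_compl.1 hu)
      _ = (Cᶜ).card * 2 := by rw [sum_const, smul_eq_mul]
      _ ≤ 2 * Fintype.card V := by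
          have := card_le_univ (Cᶜ)
          omega
  calc ∑ v ∈ C, G.degree v = ∑ v ∈ C, (C.filter (fun u => G.Adj v u)).card +
        ∑ v ∈ C, ((Cᶜ).filter (fun u => G.Adj v u)).card := by
        rw [← sum_add_distrib]
        exact sum_congr rfl fun v _ => h1 v
    _ ≤ C.card * C.card + 2 * Fintype.card V := by
        refine add_le_add ?_ (h2.trans_le h3)
        calc ∑ v ∈ C, (C.filter (fun u => G.Adj v u)).card ≤ ∑ v ∈ C, C.card :=
              sum_le_sum fun v _ => card_filter_le _ _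
          _ = C.card * C.card := by rw [sum_const, smul_eq_mul]

open Classical in
theorem large_card [Fintype V] {G : SimpleGraph V} [DecidableRel G.Adj] {ε : ℝ} (hε : 0 < ε)
    {M : ℕ} (hM : 4 / ε ≤ M) (hδ : ∀ v, (1 / 3 + ε) * (Fintype.card V : ℝ) ≤ G.degree v)
    {C : Finset V} (hMC : M ≤ C.card)
    (hC : ∀ v ∉ C, (C.filter (fun u => G.Adj v u)).card ≤ 2) :
    (1 / 3 + ε / 2) * (Fintype.card V : ℝ) ≤ C.card := by
  have h1 := sum_degree_le hC
  set n : ℝ := (Fintype.card V : ℝ) with hn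
  have hn0 : 0 ≤ n := Nat.cast_nonneg _
  have h2 : (C.card : ℝ) * ((1 / 3 + ε) * n) ≤ (C.card : ℝ) * C.card + 2 * n := by
    calc (C.card : ℝ) * ((1 / 3 + ε) * n) = ∑ v ∈ C, (1 / 3 + ε) * n := by
          rw [sum_const, nsmul_eq_mul]
      _ ≤ ∑ v ∈ C, (G.degree v : ℝ) := sum_le_sum fun v _ => hδ v
      _ = ((∑ v ∈ C, G.degree v : ℕ) : ℝ) := by push_cast; rfl
      _ ≤ ((C.card * C.card + 2 * Fintype.card V : ℕ) : ℝ) := by exact_mod_cast h1
      _ = _ := by push_cast; rfl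
  have h3 : 4 / ε ≤ (C.card : ℝ) := hM.trans (by exact_mod_cast hMC)
  have h4 : 4 ≤ (C.card : ℝ) * ε := by rwa [div_le_iff₀ hε] at h3
  have hc0 : 0 < (C.card : ℝ) := lt_of_lt_of_le (by positivity) h3
  have h5 : 2 * n ≤ (C.card : ℝ) * (ε / 2 * n) := by nlinarith
  have h6 : (C.card : ℝ) * ((1 / 3 + ε / 2) * n) ≤ (C.card : ℝ) * C.card := by nlinarith
  exact le_of_mul_le_mul_left h6 hc0

open Classical in
/-- **minimum degree above a third of the number of vertices** -/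
theorem dense (ε : ℝ) (hε : 0 < ε) : ∃ n₀ : ℕ, ∀ (V : Type) [Fintype V] (G : SimpleGraph V)
    [DecidableRel G.Adj], n₀ ≤ Fintype.card V →
    (∀ v, (1 / 3 + ε) * (Fintype.card V : ℝ) ≤ G.degree v) →
    ∃ (p : V → Fin 3 → ℝ) (A B : Finset V), Gen p ∧ RigidOn G (↑A : Set V) p ∧
      RigidOn G (↑B : Set V) p ∧ 3 ≤ A.card ∧ 3 ≤ B.card ∧ ∀ v, v ∈ A ∨ v ∈ B := by
  obtain ⟨M, hM⟩ := exists_nat_ge (max (4 / ε) 3)
  obtain ⟨N, hN⟩ := exists_nat_gt (3 / ε)
  refine ⟨max (8 * 52 ^ 6 * (M + 12)) N, ?_⟩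
  intro V _ G _ hn hδ
  obtain ⟨p, hp⟩ := exists_gen V 3
  have hM4 : 4 / ε ≤ (M : ℝ) := (le_max_left _ _).trans hM
  have hM3 : 3 ≤ M := by
    have : (3 : ℝ) ≤ M := (le_max_right _ _).trans hM
    exact_mod_cast this
  have hn1 : 8 * 52 ^ 6 * (M + 12) ≤ Fintype.card V := (le_max_left _ _).trans hn
  have hn2 : 3 / ε < (Fintype.card V : ℝ) := by
    refine hN.trans_le ?_
    exact_mod_cast (le_max_right _ _).trans hn
  have hεn : 3 < ε * (Fintype.card V : ℝ) := by
    rw [div_lt_iff₀ hε] at hn2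
    linarith
  have hδ3 : ∀ v, Fintype.card V ≤ 3 * G.degree v := by
    intro v
    have h1 := hδ v
    have h2 : (Fintype.card V : ℝ) ≤ 3 * G.degree v := by nlinarith
    exact_mod_cast h2
  have hpos : 0 < Fintype.card V := lt_of_lt_of_le (by positivity) hn1
  obtain ⟨v0⟩ := Fintype.card_pos_iff.1 hpos
  obtain ⟨R1, hR1, hR1M, -⟩ := exists_large (M := M) hp hn1 hδ3 v0 ∅ (by simp)
  obtain ⟨C1, hRC1, hC1, hC1m, hC1n⟩ := max_rigid hp hR1
  have hC1n' : ∀ v ∉ C1, (C1.filter (fun u => G.Adj v u)).card ≤ 2 := fun v hv =>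
    hC1n v hv _ (filter_subset _ _) (fun u hu => (mem_filter.1 hu).2)
  have hM1 : M ≤ C1.card := hR1M.trans (card_le_card hRC1)
  by_cases hall : ∀ v, v ∈ C1
  · exact ⟨p, C1, C1, hp, hC1, hC1, hM3.trans hM1, hM3.trans hM1, fun v => Or.inl (hall v)⟩
  push Not at hall
  obtain ⟨v, hv⟩ := hall
  obtain ⟨R2, hR2, hR2M, hR2C⟩ := exists_large (M := M) hp hn1 hδ3 v C1 (hC1n' v hv)
  obtain ⟨C2, hRC2, hC2, hC2m, hC2n⟩ := max_rigid hp hR2
  have hC2n' : ∀ v ∉ C2, (C2.filter (fun u => G.Adj v u)).card ≤ 2 := fun v hv =>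
    hC2n v hv _ (filter_subset _ _) (fun u hu => (mem_filter.1 hu).2)
  have hM2 : M ≤ C2.card := hR2M.trans (card_le_card hRC2)
  refine ⟨p, C1, C2, hp, hC1, hC2, hM3.trans hM1, hM3.trans hM2, ?_⟩
  have hint : (C1 ∩ C2).card ≤ 2 := by
    by_contra hlt
    push Not at hlt
    have h1 := hC1m (C1 ∪ C2) subset_union_left (glue hp hC1 hC2 hlt)
    apply hR2C
    refine hRC2.trans ?_
    rw [← h1]
    exact subset_union_right
  intro w
  by_contra hw
  push Not at hw
  have l1 := large_card hε hM4 hδ hM1 hC1n'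
  have l2 := large_card hε hM4 hδ hM2 hC2n'
  have hcup := card_union_add_card_inter C1 C2
  have hwn : G.degree w ≤ 4 + (univ \ (C1 ∪ C2)).card := by
    have hsub : G.neighborFinset w ⊆ (C1.filter (fun u => G.Adj w u) ∪
        C2.filter (fun u => G.Adj w u)) ∪ (univ \ (C1 ∪ C2)) := by
      intro u hu
      rw [SimpleGraph.mem_neighborFinset] at hu
      simp only [mem_union, mem_filter, mem_sdiff, mem_univ, true_and]
      tauto
    have h1 := card_le_card hsub
    rw [SimpleGraph.card_neighborFinset_eq_degree] at h1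
    have h2 := card_union_le (C1.filter (fun u => G.Adj w u) ∪
        C2.filter (fun u => G.Adj w u)) (univ \ (C1 ∪ C2))
    have h3 := card_union_le (C1.filter (fun u => G.Adj w u)) (C2.filter (fun u => G.Adj w u))
    have h4 := hC1n' w hw.1
    have h5 := hC2n' w hw.2
    omega
  have hcompl : (univ \ (C1 ∪ C2)).card + (C1 ∪ C2).card = Fintype.card V := by
    rw [card_sdiff_add_card_eq_card (subset_univ _), card_univ]
  have r1 : (G.degree w : ℝ) ≤ 4 + ((univ \ (C1 ∪ C2)).card : ℝ) := by exact_mod_cast hwn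
  have r2 : ((univ \ (C1 ∪ C2)).card : ℝ) + ((C1 ∪ C2).card : ℝ) = Fintype.card V := by
    exact_mod_cast hcompl
  have r3 : ((C1 ∪ C2).card : ℝ) + ((C1 ∩ C2).card : ℝ) = C1.card + C2.card := by
    exact_mod_cast hcup
  have r4 : ((C1 ∩ C2).card : ℝ) ≤ 2 := by exact_mod_cast hint
  have r5 := hδ w
  nlinarith

open Classical in
theorem dense_iff (ε : ℝ) (hε : 0 < ε) : ∃ n₀ : ℕ, ∀ (V : Type) [Fintype V] (G : SimpleGraph V)
    [DecidableRel G.Adj], n₀ ≤ Fintype.card V →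
    (∀ v, (1 / 3 + ε) * (Fintype.card V : ℝ) ≤ G.degree v) → (GenRigid 3 G ↔ Mixed G) := by
  obtain ⟨n₀, h0⟩ := dense ε hε
  refine ⟨n₀, ?_⟩
  intro V _ G _ hn hδ
  obtain ⟨p, A, B, hp, hA, hB, h3A, h3B, hAB⟩ := h0 V G hn hδ
  rw [hp.genRigid_iff]
  refine ⟨mixed_of_rigid hp, fun hM => ?_⟩
  exact rigid_univ_of (rigid_of_mixed hp hA hB h3A h3B hAB hM) (fun v => by
    rw [mem_union]; exact hAB v)

/-- two generically rigid parts -/
theorem two_iff (V : Type) [Finite V] (G : SimpleGraph V) (A B : Finset V)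
    (hA : GenRigid 3 (G.induce (A : Set V))) (hB : GenRigid 3 (G.induce (B : Set V)))
    (h3A : 3 ≤ A.card) (h3B : 3 ≤ B.card) (hAB : ∀ v, v ∈ A ∨ v ∈ B) :
    GenRigid 3 G ↔ Mixed G := by
  classical
  haveI := Fintype.ofFinite V
  obtain ⟨p, hp⟩ := exists_gen V 3
  rw [hp.genRigid_induce_iff] at hA hB
  rw [hp.genRigid_iff]
  refine ⟨mixed_of_rigid hp, fun hM => ?_⟩
  exact rigid_univ_of (rigid_of_mixed hp hA hB h3A h3B hAB hM) (fun v => by
    rw [mem_union]; exact hAB v)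

end Pool.Agent.TH912.Rig
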