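import Pool.Agent.TH912.Rig.States

/-!
# Two disjoint cliques joined by six edges
-/

set_option autoImplicit false

namespace Pool.Agent.TH912.Rig

open Matrix Finset Pool.Agent.H283R2.DR

variable {V : Type} [DecidableEq V] {p : V → Fin 3 → ℝ}

/-- two cliques, a vertex `v ∈ A` with three neighbours in `B`, and at least three edges which
avoid `v` and have no common vertex -/
theorem state0b (hp : Gen p) {G : SimpleGraph V} {A B : Finset V} (hA : Cl G A) (hB : Cl G B)
    {v x y z : V} (hv : v ∈ A) (hx : x ∈ B) (hy : y ∈ B) (hz : z ∈ B)
    (hxy : x ≠ y) (hxz : x ≠ z) (hyz : y ≠ z)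
    (ax : G.Adj v x) (ay : G.Adj v y) (az : G.Adj v z) (E : Finset (V × V))
    (hE : ∀ e ∈ E, e.1 ∈ A ∧ e.2 ∈ B ∧ e.1 ≠ v ∧ e.2 ≠ v ∧ G.Adj e.1 e.2)
    (h3 : 3 ≤ E.card) (hcov : ∀ w, ∃ e ∈ E, e.1 ≠ w ∧ e.2 ≠ w) :
    RigidOn G (↑(A ∪ B) : Set V) p := by
  have h := state0a hp hB hA hv hx hy hz hxy hxz hyz ax ay az (E.image Prod.swap)
    (by
      intro e he
      rw [mem_image] at he
      obtain ⟨f, hf, rfl⟩ := he
      obtain ⟨h1, h2, h3, h4, h5⟩ := hE f hf
      exact ⟨h2, h1, h4, h3, h5.symm⟩)
    (by rw [card_image_of_injective _ Prod.swap_injective]; exact h3)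
    (by
      intro w
      obtain ⟨e, he, h1, h2⟩ := hcov w
      exact ⟨e.swap, mem_image_of_mem _ he, h2, h1⟩)
  rwa [union_comm] at h

theorem exists_two {s : Finset (V × V)} {v : V} (h : (s.filter (fun e => e.1 = v)).card = 2) :
    ∃ b c, b ≠ c ∧ (v, b) ∈ s ∧ (v, c) ∈ s ∧ ∀ d, (v, d) ∈ s → d = b ∨ d = c := by
  obtain ⟨e, f, hef, h2⟩ := card_eq_two.1 h
  have he : e ∈ s.filter (fun e => e.1 = v) := by rw [h2]; simp
  have hf : f ∈ s.filter (fun e => e.1 = v) := by rw [h2]; simp
  rw [mem_filter] at he hf
  refine ⟨e.2, f.2, ?_, ?_, ?_, ?_⟩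
  · intro h
    exact hef (Prod.ext (he.2.trans hf.2.symm) h)
  · rw [← he.2]; exact he.1
  · rw [← hf.2]; exact hf.1
  · intro d hd
    have : (v, d) ∈ s.filter (fun e => e.1 = v) := mem_filter.2 ⟨hd, rfl⟩
    rw [h2, mem_insert, mem_singleton] at this
    rcases this with h | h
    · left; rw [← h]
    · right; rw [← h]

/-- Two disjoint cliques joined by six edges, each vertex being on at most two of them. -/
theorem merge (hp : Gen p) : ∀ (n : ℕ) (G : SimpleGraph V) (A B : Finset V)
    (E : Finset (V × V)), A.card = n → Disjoint A B → Cl G A → Cl G B →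
    (∀ e ∈ E, e.1 ∈ A ∧ e.2 ∈ B ∧ G.Adj e.1 e.2) → E.card = 6 →
    (∀ v, (E.filter (fun e => e.1 = v)).card ≤ 2) →
    (∀ v, (E.filter (fun e => e.2 = v)).card ≤ 2) →
    RigidOn G (↑(A ∪ B) : Set V) p := by
  intro n
  induction n with
  | zero =>
    intro G A B E hn _ _ _ hE h6 _ _
    have : E.Nonempty := by rw [← card_pos]; omega
    obtain ⟨e, he⟩ := this
    have := (hE e he).1
    rw [card_eq_zero] at hn
    simp [hn] at this
  | succ n ih =>
    intro G A B E hn hd hA hB hE h6 hd1 hd2
    have hdis : ∀ {a}, a ∈ A → a ∉ B := fun ha => disjoint_left.1 hd ha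
    have hneq : ∀ {a b : V}, a ∈ A → b ∈ B → a ≠ b := fun ha hb h => hdis ha (h ▸ hb)
    by_cases hone : ∃ y, (E.filter (fun e => e.1 = y)).card = 1
    · obtain ⟨y, hy⟩ := hone
      obtain ⟨e, he⟩ := card_eq_one.1 hy
      have heE : e ∈ E.filter (fun e => e.1 = y) := by rw [he]; simp
      rw [mem_filter] at heE
      obtain ⟨heE, hey⟩ := heE
      obtain ⟨yA, bB, yb⟩ := hE e heE
      rw [hey] at yA yb
      set b := e.2 with hb
      have heq : e = (y, b) := Prod.ext hey rfl
      rw [heq] at heE he
      -- another vertex, not adjacent to `b` in `E`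
      obtain ⟨f, hf, hfy, hfb⟩ : ∃ f ∈ E, f.1 ≠ y ∧ (f.1, b) ∉ E := by
        by_contra hcon
        push Not at hcon
        have hsub : E ⊆ (E.filter (fun e => e.1 = y)) ∪
            (((E.filter (fun e => e.2 = b)).erase (y, b)).biUnion
              fun g => E.filter (fun e => e.1 = g.1)) := by
          intro f hf
          rw [mem_union]
          by_cases h : f.1 = y
          · left
            rw [mem_filter]
            exact ⟨hf, h⟩
          · right
            rw [mem_biUnion]
            refine ⟨(f.1, b), ?_, ?_⟩
            · rw [mem_erase, mem_filter]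
              refine ⟨fun h' => h (Prod.ext_iff.1 h').1, hcon f hf h, rfl⟩
            · rw [mem_filter]
              exact ⟨hf, rfl⟩
        have h1 := card_le_card hsub
        have h2 := card_union_le (E.filter (fun e => e.1 = y))
          (((E.filter (fun e => e.2 = b)).erase (y, b)).biUnion
              fun g => E.filter (fun e => e.1 = g.1))
        have h3 := card_biUnion_le_card_mul ((E.filter (fun e => e.2 = b)).erase (y, b))
          (fun g => E.filter (fun e => e.1 = g.1)) 2 (fun g _ => hd1 g.1)
        have h4 : ((E.filter (fun e => e.2 = b)).erase (y, b)).card ≤ 1 := by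
          have hm : (y, b) ∈ E.filter (fun e => e.2 = b) := mem_filter.2 ⟨heE, rfl⟩
          rw [card_erase_of_mem hm]
          have := hd2 b
          omega
        have h5 : ((E.filter (fun e => e.2 = b)).erase (y, b)).card * 2 ≤ 2 := by omega
        omega
      obtain ⟨xA, fB, xf⟩ := hE f hf
      set x := f.1 with hx
      -- the other edges
      set R := E.filter (fun e => e.1 ≠ x ∧ e.1 ≠ y) with hR
      have hRc : E.card ≤ R.card + 1 + (E.filter (fun e => e.1 = x)).card := by
        have hsub : E ⊆ (R ∪ E.filter (fun e => e.1 = y)) ∪ E.filter (fun e => e.1 = x) := by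
          intro g hg
          rw [mem_union, mem_union, hR, mem_filter, mem_filter, mem_filter]
          by_cases h1 : g.1 = x
          · exact Or.inr ⟨hg, h1⟩
          · by_cases h2 : g.1 = y
            · exact Or.inl (Or.inr ⟨hg, h2⟩)
            · exact Or.inl (Or.inl ⟨hg, h1, h2⟩)
        have h1 := card_le_card hsub
        have h2 := card_union_le (R ∪ E.filter (fun e => e.1 = y)) (E.filter (fun e => e.1 = x))
        have h3 := card_union_le R (E.filter (fun e => e.1 = y))
        omega
      have hR3 : 3 ≤ R.card := by
        have := hd1 x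
        omega
      -- two more vertices of `A`
      obtain ⟨g, hgR⟩ : R.Nonempty := by rw [← card_pos]; omega
      obtain ⟨h, hhR, hgh⟩ : ∃ h ∈ R, h.1 ≠ g.1 := by
        by_contra hcon
        push Not at hcon
        have hsub : R ⊆ E.filter (fun e => e.1 = g.1) := by
          intro k hk
          rw [mem_filter]
          refine ⟨?_, hcon k hk⟩
          rw [hR, mem_filter] at hk
          exact hk.1
        have h1 := card_le_card hsub
        have h2 := hd1 g.1
        omega
      have hgR' := hgR
      have hhR' := hhR
      rw [hR, mem_filter] at hgR' hhR'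
      obtain ⟨hgE, hgx, hgy⟩ := hgR'
      obtain ⟨hhE, hhx, hhy⟩ := hhR'
      have gA := (hE g hgE).1
      have hhA := (hE h hhE).1
      have hxb : x ≠ b := hneq xA bB
      have key : RigidOn (G ⊔ SimpleGraph.edge x b) (↑((A.erase y) ∪ B) : Set V) p := by
        have hadj : (G ⊔ SimpleGraph.edge x b).Adj x b := by
          refine Or.inr ?_
          rw [SimpleGraph.edge_adj]
          exact ⟨Or.inl ⟨rfl, rfl⟩, hxb⟩
        have hA' : Cl (G ⊔ SimpleGraph.edge x b) (A.erase y) :=
          (hA.subset (erase_subset _ _)).mono le_sup_left
        have hB' : Cl (G ⊔ SimpleGraph.edge x b) B := hB.mono le_sup_left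
        have hdx : (E.filter (fun e => e.1 = x)).card = 1 ∨
            (E.filter (fun e => e.1 = x)).card = 2 := by
          have h1 := hd1 x
          have h2 : 0 < (E.filter (fun e => e.1 = x)).card := by
            rw [card_pos]
            exact ⟨f, mem_filter.2 ⟨hf, rfl⟩⟩
          omega
        rcases hdx with hdx | hdx
        · refine ih (G ⊔ SimpleGraph.edge x b) (A.erase y) B
            (insert (x, b) (E.erase (y, b))) ?_ ?_ hA' hB' ?_ ?_ ?_ ?_
          · rw [card_erase_of_mem yA, hn]; rfl
          · exact hd.mono_left (erase_subset _ _)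
          · intro k hk
            rw [mem_insert, mem_erase] at hk
            rcases hk with rfl | ⟨hk1, hk2⟩
            · exact ⟨mem_erase.2 ⟨hfy, xA⟩, bB, hadj⟩
            · obtain ⟨k1, k2, k3⟩ := hE k hk2
              refine ⟨mem_erase.2 ⟨?_, k1⟩, k2, Or.inl k3⟩
              intro hky
              have : k ∈ E.filter (fun e => e.1 = y) := mem_filter.2 ⟨hk2, hky⟩
              rw [he, mem_singleton] at this
              exact hk1 this
          · rw [card_insert_of_notMem (fun h => hfb (mem_of_mem_erase h)),
              card_erase_of_mem heE, h6]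
          · intro v
            by_cases hv : v = x
            · rw [hv]
              have hsub : (insert (x, b) (E.erase (y, b))).filter (fun e => e.1 = x) ⊆
                  insert (x, b) (E.filter (fun e => e.1 = x)) := by
                intro k hk
                rw [mem_filter, mem_insert, mem_erase] at hk
                rw [mem_insert, mem_filter]
                tauto
              have h1 := card_le_card hsub
              have h2 := card_insert_le (x, b) (E.filter (fun e => e.1 = x))
              omega
            · refine le_trans (card_le_card ?_) (hd1 v)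
              intro k hk
              rw [mem_filter, mem_insert, mem_erase] at hk
              rw [mem_filter]
              rcases hk with ⟨rfl | hk, hkv⟩
              · exact absurd hkv.symm hv
              · exact ⟨hk.2, hkv⟩
          · intro v
            by_cases hv : v = b
            · have hsub : (insert (x, b) (E.erase (y, b))).filter (fun e => e.2 = v) ⊆
                  insert (x, b) ((E.filter (fun e => e.2 = v)).erase (y, b)) := by
                intro k hk
                rw [mem_filter, mem_insert, mem_erase] at hk
                rw [mem_insert, mem_erase, mem_filter]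
                tauto
              have h1 := card_le_card hsub
              have h2 := card_insert_le (x, b) ((E.filter (fun e => e.2 = v)).erase (y, b))
              have hm : (y, b) ∈ E.filter (fun e => e.2 = v) := mem_filter.2 ⟨heE, hv.symm⟩
              rw [card_erase_of_mem hm] at h2
              have h3 := hd2 v
              omega
            · refine le_trans (card_le_card ?_) (hd2 v)
              intro k hk
              rw [mem_filter, mem_insert, mem_erase] at hk
              rw [mem_filter]
              rcases hk with ⟨rfl | hk, hkv⟩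
              · exact absurd hkv.symm hv
              · exact ⟨hk.2, hkv⟩
        · obtain ⟨c, d, hcd, hc, hd', -⟩ := exists_two hdx
          refine state0b hp hA' hB' (v := x) (x := b) (y := c) (z := d)
            (mem_erase.2 ⟨hfy, xA⟩) bB (hE _ hc).2.1 (hE _ hd').2.1
            (fun h => hfb (h ▸ hc)) (fun h => hfb (h ▸ hd')) hcd hadj
            (Or.inl (hE _ hc).2.2) (Or.inl (hE _ hd').2.2) R ?_ hR3 ?_
          · intro k hk
            rw [hR, mem_filter] at hk
            obtain ⟨k1, k2, k3⟩ := hE k hk.1
            exact ⟨mem_erase.2 ⟨hk.2.2, k1⟩, k2, hk.2.1, (hneq xA k2).symm, Or.inl k3⟩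
          · intro w
            by_contra hcon
            push Not at hcon
            by_cases hw : w ∈ A
            · have hsub : R ⊆ E.filter (fun e => e.1 = w) := by
                intro k hk
                have hk' := hk
                rw [hR, mem_filter] at hk'
                rw [mem_filter]
                refine ⟨hk'.1, ?_⟩
                by_contra hkw
                exact hneq hw (hE k hk'.1).2.1 (hcon k hk hkw).symm
              have h1 := card_le_card hsub
              have h2 := hd1 w
              omega
            · have hsub : R ⊆ E.filter (fun e => e.2 = w) := by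
                intro k hk
                have hk' := hk
                rw [hR, mem_filter] at hk'
                rw [mem_filter]
                refine ⟨hk'.1, hcon k hk ?_⟩
                intro hkw
                exact hw (hkw ▸ (hE k hk'.1).1)
              have h1 := card_le_card hsub
              have h2 := hd2 w
              omega
      have h5 := ext1R hp (G := G) (U := (↑((A.erase y) ∪ B) : Set V)) (v := y) (x := x)
        (y := b) (z := g.1) (w := h.1)
        (by
          rw [mem_coe, mem_union, mem_erase]
          rintro (h | h)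
          · exact h.1 rfl
          · exact hdis yA h)
        (by rw [mem_coe, mem_union, mem_erase]; exact Or.inl ⟨hfy, xA⟩)
        (by rw [mem_coe, mem_union]; exact Or.inr bB)
        (by rw [mem_coe, mem_union, mem_erase]; exact Or.inl ⟨hgy, gA⟩)
        (by rw [mem_coe, mem_union, mem_erase]; exact Or.inl ⟨hhy, hhA⟩)
        hxb hgx.symm hhx.symm (hneq gA bB).symm (hneq hhA bB).symm hgh.symm
        (hA _ yA _ xA hfy.symm) yb (hA _ yA _ gA hgy.symm) (hA _ yA _ hhA hhy.symm) key
      refine rigid_of_set_eq h5 ?_
      ext z
      simp only [Set.mem_insert_iff, mem_coe, mem_union, mem_erase]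
      constructor
      · rintro (rfl | ⟨-, h⟩ | h)
        · exact Or.inl yA
        · exact Or.inl h
        · exact Or.inr h
      · rintro (h | h)
        · by_cases hx : z = y
          · exact Or.inl hx
          · exact Or.inr (Or.inl ⟨hx, h⟩)
        · exact Or.inr (Or.inr h)
    · -- all vertices of `A` are on `0` or `2` of the edges
      have hdeg : ∀ e ∈ E, (E.filter (fun k => k.1 = e.1)).card = 2 := by
        intro e he
        have h1 := hd1 e.1
        have h2 : 0 < (E.filter (fun k => k.1 = e.1)).card := by
          rw [card_pos]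
          exact ⟨e, mem_filter.2 ⟨he, rfl⟩⟩
        have h3 : (E.filter (fun k => k.1 = e.1)).card ≠ 1 := fun h => hone ⟨_, h⟩
        omega
      obtain ⟨e, he⟩ : E.Nonempty := by rw [← card_pos]; omega
      obtain ⟨b1, b2, hb12, hb1, hb2, -⟩ := exists_two (hdeg e he)
      set a := e.1 with ha
      -- an edge which avoids the three
      obtain ⟨f, hf, hfa, hf1, hf2⟩ : ∃ f ∈ E, f.1 ≠ a ∧ f.2 ≠ b1 ∧ f.2 ≠ b2 := by
        by_contra hcon
        push Not at hcon
        have hsub : E ⊆ (E.filter (fun k => k.1 = a)) ∪
            (((E.filter (fun k => k.2 = b1)).erase (a, b1)) ∪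
              ((E.filter (fun k => k.2 = b2)).erase (a, b2))) := by
          intro k hk
          simp only [mem_union, mem_filter, mem_erase]
          by_cases h1 : k.1 = a
          · exact Or.inl ⟨hk, h1⟩
          · right
            by_cases h2 : k.2 = b1
            · exact Or.inl ⟨fun h => h1 (by rw [h]), hk, h2⟩
            · exact Or.inr ⟨fun h => h1 (by rw [h]), hk, hcon k hk h1 h2⟩
        have h1 := card_le_card hsub
        have h2 := card_union_le (E.filter (fun k => k.1 = a))
          (((E.filter (fun k => k.2 = b1)).erase (a, b1)) ∪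
              ((E.filter (fun k => k.2 = b2)).erase (a, b2)))
        have h3 := card_union_le ((E.filter (fun k => k.2 = b1)).erase (a, b1))
          ((E.filter (fun k => k.2 = b2)).erase (a, b2))
        have m1 : (a, b1) ∈ E.filter (fun k => k.2 = b1) := mem_filter.2 ⟨hb1, rfl⟩
        have m2 : (a, b2) ∈ E.filter (fun k => k.2 = b2) := mem_filter.2 ⟨hb2, rfl⟩
        rw [card_erase_of_mem m1, card_erase_of_mem m2] at h3
        have h4 := hd1 a
        have h5 := hd2 b1
        have h6 := hd2 b2
        omega
      obtain ⟨c1, c2, hc12, hc1, hc2, hcall⟩ := exists_two (hdeg f hf)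
      set x := f.1 with hx
      -- choose `b ∈ {b1, b2}` not adjacent to `x`
      obtain ⟨b, b', hbb', hb, hb', hxb⟩ : ∃ b b', b ≠ b' ∧ (a, b) ∈ E ∧ (a, b') ∈ E ∧
          (x, b) ∉ E := by
        by_cases h : (x, b1) ∈ E
        · refine ⟨b2, b1, hb12.symm, hb2, hb1, ?_⟩
          intro h'
          have hfx : (x, f.2) ∈ E := hf
          rcases hcall _ h with h1 | h1 <;> rcases hcall _ h' with h2 | h2 <;>
            rcases hcall _ hfx with h3 | h3
          · exact hb12 (h1.trans h2.symm)
          · exact hb12 (h1.trans h2.symm)
          · exact hf1 (h3.trans h1.symm)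
          · exact hf2 (h3.trans h2.symm)
          · exact hf2 (h3.trans h2.symm)
          · exact hf1 (h3.trans h1.symm)
          · exact hb12 (h1.trans h2.symm)
          · exact hb12 (h1.trans h2.symm)
        · exact ⟨b1, b2, hb12, hb1, hb2, h⟩
      -- a third vertex
      obtain ⟨g, hg, hga, hgx⟩ : ∃ g ∈ E, g.1 ≠ a ∧ g.1 ≠ x := by
        by_contra hcon
        push Not at hcon
        have hsub : E ⊆ (E.filter (fun k => k.1 = a)) ∪ (E.filter (fun k => k.1 = x)) := by
          intro k hk
          simp only [mem_union, mem_filter]
          by_cases h1 : k.1 = a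
          · exact Or.inl ⟨hk, h1⟩
          · exact Or.inr ⟨hk, hcon k hk h1⟩
        have h1 := card_le_card hsub
        have h2 := card_union_le (E.filter (fun k => k.1 = a)) (E.filter (fun k => k.1 = x))
        have h4 := hd1 a
        have h5 := hd1 x
        omega
      obtain ⟨d1, d2, hd12, hg1, hg2, -⟩ := exists_two (hdeg g hg)
      set z := g.1 with hz
      have aA := (hE _ hb).1
      have xA := (hE _ hc1).1
      have zA := (hE _ hg1).1
      have bB := (hE _ hb).2.1
      have b'B := (hE _ hb').2.1
      have c1B := (hE _ hc1).2.1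
      have c2B := (hE _ hc2).2.1
      have d1B := (hE _ hg1).2.1
      have d2B := (hE _ hg2).2.1
      dsimp only at aA xA zA bB b'B c1B c2B d1B d2B
      have hxb' : x ≠ b := hneq xA bB
      have hadj : (G ⊔ SimpleGraph.edge x b).Adj x b := by
        refine Or.inr ?_
        rw [SimpleGraph.edge_adj]
        exact ⟨Or.inl ⟨rfl, rfl⟩, hxb'⟩
      have r1 : RigidOn (G ⊔ SimpleGraph.edge x b) (↑(insert x B) : Set V) p :=
        add_vertex hp (clique_rigid hp (hB.mono le_sup_left)) bB c1B c2B
          (fun h => hxb (h ▸ hc1)) (fun h => hxb (h ▸ hc2)) hc12 hadj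
          (Or.inl (hE _ hc1).2.2) (Or.inl (hE _ hc2).2.2)
      have r2 : RigidOn (G ⊔ SimpleGraph.edge x b) (↑(insert z (insert x B)) : Set V) p :=
        add_vertex hp r1 (mem_insert_self x B) (mem_insert_of_mem d1B) (mem_insert_of_mem d2B)
          (hneq xA d1B) (hneq xA d2B) hd12 (Or.inl (hA _ zA _ xA hgx))
          (Or.inl (hE _ hg1).2.2) (Or.inl (hE _ hg2).2.2)
      have r3 := ext1R hp (G := G) (U := (↑(insert z (insert x B)) : Set V)) (v := a) (x := x)
        (y := b) (z := z) (w := b')
        (by
          simp only [mem_coe, mem_insert, not_or]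
          exact ⟨hga.symm, hfa.symm, hdis aA⟩)
        (by simp) (by simp [bB]) (by simp) (by simp [b'B])
        hxb' hgx.symm (hneq xA b'B) (hneq zA bB).symm hbb' (hneq zA b'B)
        (hA _ aA _ xA hfa.symm) (hE _ hb).2.2 (hA _ aA _ zA hga.symm) (hE _ hb').2.2 r2
      have r3' : RigidOn G (↑(insert a (insert z (insert x B))) : Set V) p := by
        rw [coe_insert]
        exact r3
      have r4 := glue3 hp r3' (clique_rigid hp hA) (x := a) (y := z) (z := x)
        (by simp) (by simp) (by simp) aA zA xA hga.symm hfa.symm hgx
      refine rigid_of_set_eq r4 ?_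
      ext t
      simp only [mem_coe, mem_union, mem_insert]
      constructor
      · rintro ((rfl | rfl | rfl | h) | h)
        · exact Or.inl aA
        · exact Or.inl zA
        · exact Or.inl xA
        · exact Or.inr h
        · exact Or.inl h
      · rintro (h | h)
        · exact Or.inr h
        · exact Or.inl (Or.inr (Or.inr (Or.inr h)))

end Pool.Agent.TH912.Rig
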