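import Pool.Agent.TH912.Rig.Body
import Pool.Agent.TH349.Rig.Two

/-!
# Necessary conditions for generic rigidity in space
-/

set_option autoImplicit false

namespace Pool.Agent.TH912.Rig

open Matrix Finset Pool.Agent.H283R2.DR

variable {V : Type} {p : V → Fin 3 → ℝ}

theorem finrank_sk : Module.finrank ℝ (TA.Sk 3) = 3 := by
  have h := H789R5.finrank_triv 3
  rw [Module.finrank_prod, Module.finrank_fintype_fun_eq_card, Fintype.card_fin] at h
  omega

/-- the rotations about the point `c` -/
def rotAt (c : Fin 3 → ℝ) : TA.Sk 3 →ₗ[ℝ] (TA.Sk 3 × (Fin 3 → ℝ)) where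
  toFun A := (A, -((A : Matrix (Fin 3) (Fin 3) ℝ) *ᵥ c))
  map_add' := by
    intro A B
    refine Prod.ext rfl ?_
    simp only [Submodule.coe_add, add_mulVec, Prod.snd_add]
    abel
  map_smul' := by
    intro c A
    refine Prod.ext rfl ?_
    simp only [Submodule.coe_smul, smul_mulVec, Prod.smul_snd, RingHom.id_apply, smul_neg]

theorem ne_of_pos (hp : Gen p) {u w : V} (huw : u ≠ w) : p u ≠ p w := by
  have hinj : Function.Injective ![u, w] := by
    intro i j hij
    fin_cases i <;> fin_cases j <;> simp_all
  have h := hp.pos 2 ![u, w] (by norm_num) hinj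
  intro h'
  have h2 : (0 : Fin 2) = 1 := h.injective (by simpa using h')
  exact absurd h2 (by decide)

theorem mixed_of_rigid (hp : Gen p) {G : SimpleGraph V} (hG : RigidOn G Set.univ p) :
    Mixed G := by
  classical
  intro S T U hST hSU hTU hcov h1 h2
  rcases Nat.lt_or_ge U.card 3 with h | h
  · have hc : U.card = 0 ∨ U.card = 1 ∨ U.card = 2 := by omega
    rcases hc with hc | hc | hc
    · rw [hc]
      rw [card_eq_zero] at hc
      have h3 := nec hp hG hST hSU hTU hcov h1 h2 (LinearMap.id : (TA.Sk 3 × (Fin 3 → ℝ)) →ₗ[ℝ] _)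
        Function.injective_id (by
          intro x u hu
          rw [hc] at hu
          simp at hu)
      rw [H789R5.finrank_triv] at h3
      exact h3
    · rw [hc]
      obtain ⟨c, hU⟩ := card_eq_one.1 hc
      have h3 := nec hp hG hST hSU hTU hcov h1 h2 (rotAt (p c))
        (fun A B h => (Prod.ext_iff.1 h).1) (by
          intro x u hu
          rw [hU, mem_singleton] at hu
          rw [hu]
          simp [rotAt, TA.triv])
      rw [finrank_sk] at h3
      exact h3
    · rw [hc]
      obtain ⟨u, w, huw, hU⟩ := card_eq_two.1 hc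
      set d := p w - p u with hd
      have hd0 : d ≠ 0 := sub_ne_zero.2 (ne_of_pos hp huw.symm)
      set R : TA.Sk 3 := ⟨TH349.Rig.rot d, TH349.Rig.rot_skew d⟩ with hR
      have hR0 : R ≠ 0 := by
        intro h
        exact hd0 (TH349.Rig.rot_eq_zero (congrArg Subtype.val h))
      have h3 := nec hp hG hST hSU hTU hcov h1 h2
        (LinearMap.toSpanSingleton ℝ (TA.Sk 3 × (Fin 3 → ℝ)) (rotAt (p u) R))
        (by
          intro a b hab
          have h4 := congrArg Prod.fst hab
          simp only [LinearMap.toSpanSingleton_apply] at h4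
          exact smul_left_injective ℝ hR0 h4) (by
          intro x v hv
          rw [LinearMap.toSpanSingleton_apply, map_smul]
          have h5 : TA.triv p (rotAt (p u) R) v = 0 := by
            rw [hU, mem_insert, mem_singleton] at hv
            have h6 : TA.triv p (rotAt (p u) R) v = TH349.Rig.rot d *ᵥ (p v - p u) := by
              simp only [TA.triv, rotAt, LinearMap.coe_mk, AddHom.coe_mk, hR, mulVec_sub]
              abel
            rw [h6]
            rcases hv with rfl | rfl
            · simp
            · exact TH349.Rig.rot_self d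
          rw [Pi.smul_apply, h5, smul_zero])
      rw [Module.finrank_self] at h3
      exact h3
  · rw [Nat.choose_eq_zero_of_lt (by omega)]
    exact Nat.zero_le _

/-- each vertex has degree at least three -/
theorem degree_ge (hp : Gen p) [Fintype V] {G : SimpleGraph V} [DecidableRel G.Adj]
    (hG : RigidOn G Set.univ p) (h4 : 4 ≤ Fintype.card V) (v : V) : 3 ≤ G.degree v := by
  classical
  by_contra hlt
  push Not at hlt
  let Ψ : (Fin 3 → ℝ) →ₗ[ℝ] (G.neighborFinset v → ℝ) :=
    { toFun := fun x u => (p v - p u) ⬝ᵥ x
      map_add' := by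
        intro x y
        funext e
        simp only [Pi.add_apply, dotProduct_add]
      map_smul' := by
        intro c x
        funext e
        simp only [Pi.smul_apply, dotProduct_smul, RingHom.id_apply] }
  have hker : LinearMap.ker Ψ ≠ ⊥ := by
    apply LinearMap.ker_ne_bot_of_finrank_lt
    rw [Module.finrank_fintype_fun_eq_card, Fintype.card_coe, Module.finrank_fintype_fun_eq_card,
      Fintype.card_fin, SimpleGraph.card_neighborFinset_eq_degree]
    exact hlt
  obtain ⟨x, hx, hx0⟩ := (Submodule.ne_bot_iff _).1 hker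
  rw [LinearMap.mem_ker] at hx
  have hx' : ∀ u, G.Adj v u → (p v - p u) ⬝ᵥ x = 0 := by
    intro u hu
    exact congrFun hx ⟨u, by simpa using hu⟩
  obtain ⟨A, b, hA, hb⟩ := hG (Pi.single v x) (by
    intro u _ w _ huw
    by_cases hu : u = v
    · subst hu
      rw [Pi.single_eq_same, Pi.single_eq_of_ne huw.ne', sub_zero]
      exact hx' w huw
    · by_cases hw : w = v
      · subst hw
        rw [Pi.single_eq_same, Pi.single_eq_of_ne hu, zero_sub, ← neg_sub (p w), neg_dotProduct,
          dotProduct_neg, neg_neg]
        exact hx' u huw.symm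
      · rw [Pi.single_eq_of_ne hu, Pi.single_eq_of_ne hw]
        simp)
  obtain ⟨hA0, hb0⟩ := triv_unique hp (S := univ.erase v) (A' := 0) (b' := 0) (by
    rw [card_erase_of_mem (mem_univ v), card_univ]
    omega) hA (by simp) (by
      intro u hu
      rw [← hb u trivial, Pi.single_eq_of_ne (ne_of_mem_erase hu)]
      simp)
  have := hb v trivial
  rw [Pi.single_eq_same, hA0, hb0] at this
  apply hx0
  rw [this]
  simp

/-- two adjacent vertices of degree three are impossible -/
theorem degree_add_ge (hp : Gen p) [Fintype V] {G : SimpleGraph V} [DecidableRel G.Adj]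
    (hG : RigidOn G Set.univ p) (h5 : 5 ≤ Fintype.card V) {v w : V} (hvw : G.Adj v w) :
    7 ≤ G.degree v + G.degree w := by
  classical
  by_contra hlt
  push Not at hlt
  let Ψ : ((Fin 3 → ℝ) × (Fin 3 → ℝ)) →ₗ[ℝ]
      ((G.neighborFinset v ⊕ ((G.neighborFinset w).erase v : Finset V)) → ℝ) :=
    { toFun := fun x t => match t with
        | Sum.inl u => (p v - p u) ⬝ᵥ (x.1 - if (u : V) = w then x.2 else 0)
        | Sum.inr u => (p w - p u) ⬝ᵥ x.2
      map_add' := by
        intro x y
        funext e
        rcases e with e | e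
        · simp only [Prod.fst_add, Prod.snd_add, Pi.add_apply, ← dotProduct_add]
          congr 1
          split_ifs
          · abel
          · abel
        · simp only [Prod.snd_add, Pi.add_apply, dotProduct_add]
      map_smul' := by
        intro c x
        funext e
        rcases e with e | e
        · simp only [Prod.smul_fst, Prod.smul_snd, Pi.smul_apply, RingHom.id_apply,
            ← dotProduct_smul, smul_sub]
          congr 2
          split_ifs
          · rfl
          · rw [smul_zero]
        · simp only [Prod.smul_snd, Pi.smul_apply, dotProduct_smul, RingHom.id_apply] }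
  have hker : LinearMap.ker Ψ ≠ ⊥ := by
    apply LinearMap.ker_ne_bot_of_finrank_lt
    rw [Module.finrank_fintype_fun_eq_card, Fintype.card_sum, Fintype.card_coe, Fintype.card_coe,
      Module.finrank_prod, Module.finrank_fintype_fun_eq_card,
      Fintype.card_fin, card_erase_of_mem (by simpa using hvw.symm),
      SimpleGraph.card_neighborFinset_eq_degree, SimpleGraph.card_neighborFinset_eq_degree]
    have hw : 0 < G.degree w := by
      rw [SimpleGraph.degree_pos_iff_exists_adj]
      exact ⟨v, hvw.symm⟩
    omega
  obtain ⟨x, hx, hx0⟩ := (Submodule.ne_bot_iff _).1 hker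
  rw [LinearMap.mem_ker] at hx
  have hxv : ∀ u, G.Adj v u → (p v - p u) ⬝ᵥ (x.1 - if u = w then x.2 else 0) = 0 := by
    intro u hu
    exact congrFun hx (Sum.inl ⟨u, by simpa using hu⟩)
  have hxw : ∀ u, G.Adj w u → u ≠ v → (p w - p u) ⬝ᵥ x.2 = 0 := by
    intro u hu huv
    exact congrFun hx (Sum.inr ⟨u, by simpa using ⟨huv, hu⟩⟩)
  set q : V → Fin 3 → ℝ := fun u => if u = v then x.1 else if u = w then x.2 else 0 with hq
  have hqv : q v = x.1 := by simp [hq]
  have hqw : q w = x.2 := by simp [hq, hvw.ne']
  have hqo : ∀ u, u ≠ v → u ≠ w → q u = 0 := by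
    intro u h1 h2
    simp [hq, h1, h2]
  have hsym : ∀ a b, (p a - p b) ⬝ᵥ (q a - q b) = (p b - p a) ⬝ᵥ (q b - q a) := by
    intro a b
    rw [← neg_sub (p b), ← neg_sub (q b), neg_dotProduct_neg]
  have hV : ∀ u, G.Adj v u → (p v - p u) ⬝ᵥ (q v - q u) = 0 := by
    intro u hu
    have h1 := hxv u hu
    rw [hqv]
    by_cases huw : u = w
    · rw [if_pos huw] at h1
      rw [huw, hqw]
      rw [huw] at h1
      exact h1
    · rw [if_neg huw] at h1
      rw [hqo u hu.ne' huw]
      exact h1
  have hW : ∀ u, G.Adj w u → (p w - p u) ⬝ᵥ (q w - q u) = 0 := by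
    intro u hu
    by_cases huv : u = v
    · rw [huv, hsym]
      exact hV w hvw
    · rw [hqw, hqo u huv hu.ne', sub_zero]
      exact hxw u hu huv
  obtain ⟨A, b, hA, hb⟩ := hG q (by
    intro a _ c _ hac
    by_cases ha : a = v
    · rw [ha] at hac ⊢
      exact hV c hac
    · by_cases hc : c = v
      · rw [hc] at hac ⊢
        rw [hsym]
        exact hV a hac.symm
      · by_cases ha' : a = w
        · rw [ha'] at hac ⊢
          exact hW c hac
        · by_cases hc' : c = w
          · rw [hc'] at hac ⊢
            rw [hsym]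
            exact hW a hac.symm
          · rw [hqo a ha ha', hqo c hc hc']
            simp)
  obtain ⟨hA0, hb0⟩ := triv_unique hp (S := (univ.erase v).erase w) (A' := 0) (b' := 0) (by
    rw [card_erase_of_mem (mem_erase.2 ⟨hvw.ne', mem_univ w⟩), card_erase_of_mem (mem_univ v),
      card_univ]
    omega) hA (by simp) (by
      intro u hu
      rw [mem_erase, mem_erase] at hu
      rw [← hb u trivial, hqo u hu.2.1 hu.1]
      simp)
  have e1 := hb v trivial
  have e2 := hb w trivial
  rw [hqv, hA0, hb0] at e1
  rw [hqw, hA0, hb0] at e2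
  apply hx0
  refine Prod.ext ?_ ?_
  · rw [e1]; simp
  · rw [e2]; simp

end Pool.Agent.TH912.Rig
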