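import Pool.Agent.TH912.Rig.Base

/-!
# Two cliques with common vertices joined by edges
-/

set_option autoImplicit false

namespace Pool.Agent.TH912.Rig

open Matrix Finset Pool.Agent.H283R2.DR

variable {V : Type} [DecidableEq V] {p : V → Fin 3 → ℝ}

/-- a vertex with three neighbours in a rigid set -/
theorem add_vertex (hp : Gen p) {G : SimpleGraph V} {A : Finset V} {v x y z : V}
    (hA : RigidOn G (↑A : Set V) p) (hx : x ∈ A) (hy : y ∈ A) (hz : z ∈ A)
    (hxy : x ≠ y) (hxz : x ≠ z) (hyz : y ≠ z)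
    (ax : G.Adj v x) (ay : G.Adj v y) (az : G.Adj v z) :
    RigidOn G (↑(insert v A) : Set V) p := by
  have h := IL.extend hp G (↑A : Set V) hA v {x, y, z} (by
    rw [card_insert_of_notMem (by simp [hxy, hxz]), card_pair hyz])
    (by
      intro u hu
      simp only [mem_insert, mem_singleton] at hu
      rcases hu with rfl | rfl | rfl <;> assumption)
    (by
      intro u hu
      simp only [mem_insert, mem_singleton] at hu
      rcases hu with rfl | rfl | rfl <;> assumption)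
  rw [coe_insert]
  exact h

theorem glue3 (hp : Gen p) {G : SimpleGraph V} {A B : Finset V} {x y z : V}
    (hA : RigidOn G (↑A : Set V) p) (hB : RigidOn G (↑B : Set V) p)
    (hx : x ∈ A) (hy : y ∈ A) (hz : z ∈ A) (hx' : x ∈ B) (hy' : y ∈ B) (hz' : z ∈ B)
    (hxy : x ≠ y) (hxz : x ≠ z) (hyz : y ≠ z) :
    RigidOn G (↑(A ∪ B) : Set V) p := by
  refine glue hp hA hB ?_
  have h3 : ({x, y, z} : Finset V).card = 3 := by
    rw [card_insert_of_notMem (by simp [hxy, hxz]), card_pair hyz]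
  rw [← h3]
  apply card_le_card
  intro u hu
  simp only [mem_insert, mem_singleton] at hu
  rw [mem_inter]
  rcases hu with rfl | rfl | rfl <;> exact ⟨by assumption, by assumption⟩

theorem clique_rigid (hp : Gen p) {G : SimpleGraph V} {A : Finset V} (hA : Cl G A) :
    RigidOn G (↑A : Set V) p := rigid_complete hp G A hA

/-- two cliques with two common vertices and one more edge -/
theorem state2 (hp : Gen p) {G : SimpleGraph V} {A B : Finset V} (hA : Cl G A) (hB : Cl G B)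
    {u w a b : V} (huA : u ∈ A) (huB : u ∈ B) (hwA : w ∈ A) (hwB : w ∈ B) (huw : u ≠ w)
    (ha : a ∈ A) (hb : b ∈ B) (hau : a ≠ u) (haw : a ≠ w) (hbu : b ≠ u) (hbw : b ≠ w)
    (hab : G.Adj a b) : RigidOn G (↑(A ∪ B) : Set V) p := by
  have h1 : RigidOn G (↑(insert b A) : Set V) p :=
    add_vertex hp (clique_rigid hp hA) huA hwA ha huw hau.symm haw.symm
      (hB b hb u huB hbu) (hB b hb w hwB hbw) hab.symm
  have h2 := glue3 hp h1 (clique_rigid hp hB) (mem_insert_of_mem huA) (mem_insert_of_mem hwA)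
    (mem_insert_self b A) huB hwB hb huw hbu.symm hbw.symm
  refine rigid_of_set_eq h2 ?_
  ext x
  simp only [mem_coe, mem_union, mem_insert]
  constructor
  · rintro ((rfl | h) | h)
    · exact Or.inr hb
    · exact Or.inl h
    · exact Or.inr h
  · rintro (h | h)
    · exact Or.inl (Or.inr h)
    · exact Or.inr h

/-- two cliques with one common vertex `u`, a vertex `v ∈ B` with two neighbours in `A`, and an
edge which avoids `u` and `v` -/
theorem state1a (hp : Gen p) {G : SimpleGraph V} {A B : Finset V} (hA : Cl G A) (hB : Cl G B)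
    {u v a1 a2 a b : V} (huA : u ∈ A) (huB : u ∈ B) (hvB : v ∈ B) (huv : u ≠ v)
    (h1 : a1 ∈ A) (h2 : a2 ∈ A) (h12 : a1 ≠ a2) (h1u : a1 ≠ u) (h2u : a2 ≠ u)
    (hv1 : G.Adj v a1) (hv2 : G.Adj v a2)
    (ha : a ∈ A) (hb : b ∈ B) (hau : a ≠ u) (hav : a ≠ v) (hbu : b ≠ u) (hbv : b ≠ v)
    (hab : G.Adj a b) : RigidOn G (↑(A ∪ B) : Set V) p := by
  have e1 : RigidOn G (↑(insert v A) : Set V) p :=
    add_vertex hp (clique_rigid hp hA) huA h1 h2 h1u.symm h2u.symm h12
      (hB v hvB u huB huv.symm) hv1 hv2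
  have hset : (insert v A) ∪ B = A ∪ B := by
    ext x
    simp only [mem_union, mem_insert]
    constructor
    · rintro ((rfl | h) | h)
      · exact Or.inr hvB
      · exact Or.inl h
      · exact Or.inr h
    · rintro (h | h)
      · exact Or.inl (Or.inr h)
      · exact Or.inr h
  have e2 := state2 hp (G := G ⊔ Kn (insert v A)) (A := insert v A) (B := B)
    (cl_sup G _) (hB.mono le_sup_left) (u := u) (w := v) (a := a) (b := b)
    (mem_insert_of_mem huA) huB (mem_insert_self v A) hvB huv (mem_insert_of_mem ha) hb hau hav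
    hbu hbv (Or.inl hab)
  rw [hset] at e2
  refine fill e1 ?_ e2
  intro x hx
  rw [mem_coe, ← hset]
  exact mem_union_left _ hx

/-- two cliques with one common vertex `u`, joined by at least three edges which avoid `u` and
have no common vertex -/
theorem state1 (hp : Gen p) {G : SimpleGraph V} {A B : Finset V} (hA : Cl G A) (hB : Cl G B)
    {u : V} (huA : u ∈ A) (huB : u ∈ B) (E : Finset (V × V))
    (hE : ∀ e ∈ E, e.1 ∈ A ∧ e.2 ∈ B ∧ e.1 ≠ u ∧ e.2 ≠ u ∧ G.Adj e.1 e.2)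
    (h3 : 3 ≤ E.card) (hcov : ∀ w, ∃ e ∈ E, e.1 ≠ w ∧ e.2 ≠ w) :
    RigidOn G (↑(A ∪ B) : Set V) p := by
  -- a second common vertex
  by_cases hW : ∃ w, w ∈ A ∧ w ∈ B ∧ u ≠ w
  · obtain ⟨w, hwA, hwB, huw⟩ := hW
    obtain ⟨e, he, h1, h2⟩ := hcov w
    obtain ⟨ea, eb, eau, ebu, eadj⟩ := hE e he
    exact state2 hp hA hB huA huB hwA hwB huw ea eb eau h1 ebu h2 eadj
  -- a vertex of `B` with two neighbours
  by_cases hB2 : ∃ e ∈ E, ∃ f ∈ E, e.2 = f.2 ∧ e.1 ≠ f.1
  · obtain ⟨e, he, f, hf, hef, hne⟩ := hB2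
    obtain ⟨ea, eb, eau, ebu, eadj⟩ := hE e he
    obtain ⟨fa, fb, fau, fbu, fadj⟩ := hE f hf
    obtain ⟨g, hg, g1, g2⟩ := hcov e.2
    obtain ⟨ga, gb, gau, gbu, gadj⟩ := hE g hg
    exact state1a hp hA hB huA huB eb ebu.symm ea fa hne eau fau eadj.symm
      (by rw [hef]; exact fadj.symm) ga gb gau g1 gbu g2 gadj
  by_cases hA2 : ∃ e ∈ E, ∃ f ∈ E, e.1 = f.1 ∧ e.2 ≠ f.2
  · obtain ⟨e, he, f, hf, hef, hne⟩ := hA2
    obtain ⟨ea, eb, eau, ebu, eadj⟩ := hE e he
    obtain ⟨fa, fb, fau, fbu, fadj⟩ := hE f hf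
    obtain ⟨g, hg, g1, g2⟩ := hcov e.1
    obtain ⟨ga, gb, gau, gbu, gadj⟩ := hE g hg
    have := state1a hp hB hA huB huA ea eau.symm eb fb hne ebu fbu eadj
      (by rw [hef]; exact fadj) gb ga gbu g2 gau g1 gadj.symm
    rwa [union_comm] at this
  -- a matching
  push Not at hB2 hA2
  obtain ⟨E3, hE3, hc3⟩ := exists_subset_card_eq h3
  obtain ⟨e, f, g, hef, heg, hfg, hE3'⟩ := card_eq_three.1 hc3
  have he : e ∈ E := hE3 (by rw [hE3']; simp)
  have hf : f ∈ E := hE3 (by rw [hE3']; simp)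
  have hg : g ∈ E := hE3 (by rw [hE3']; simp)
  obtain ⟨ea, eb, eau, ebu, eadj⟩ := hE e he
  obtain ⟨fa, fb, fau, fbu, fadj⟩ := hE f hf
  obtain ⟨ga, gb, gau, gbu, gadj⟩ := hE g hg
  have key : ∀ e ∈ E, ∀ f ∈ E, e ≠ f → e.1 ≠ f.1 ∧ e.2 ≠ f.2 := by
    intro e he f hf hne
    constructor
    · intro h1
      exact hne (Prod.ext h1 (hA2 e he f hf h1))
    · intro h2
      exact hne (Prod.ext (hB2 e he f hf h2) h2)
  obtain ⟨ef1, ef2⟩ := key e he f hf hef
  obtain ⟨eg1, eg2⟩ := key e he g hg heg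
  obtain ⟨fg1, fg2⟩ := key f hf g hg hfg
  have hnB : ∀ a ∈ A, a ≠ u → a ∉ B := fun a ha hau hB' => hW ⟨a, ha, hB', hau.symm⟩
  have hnA : ∀ b ∈ B, b ≠ u → b ∉ A := fun b hb hbu hA' => hW ⟨b, hA', hb, hbu.symm⟩
  have e1B := hnB _ ea eau
  have f1B := hnB _ fa fau
  have g1B := hnB _ ga gau
  have e2A := hnA _ eb ebu
  have f2A := hnA _ fb fbu
  have g2A := hnA _ gb gbu
  -- move the edge `e` to `f.1`
  have hstep : RigidOn (G ⊔ SimpleGraph.edge f.1 e.2) (↑((A.erase e.1) ∪ B) : Set V) p := by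
    have h := state1a hp (G := G ⊔ SimpleGraph.edge f.1 e.2) (A := B) (B := A.erase e.1)
      (hB.mono le_sup_left) ((hA.subset (erase_subset _ _)).mono le_sup_left) (u := u)
      (v := f.1) (a1 := e.2) (a2 := f.2) (a := g.2) (b := g.1) huB
      (mem_erase.2 ⟨eau.symm, huA⟩) (mem_erase.2 ⟨ef1.symm, fa⟩) fau.symm eb fb ef2 ebu fbu
      (by
        refine Or.inr ?_
        rw [SimpleGraph.edge_adj]
        exact ⟨Or.inl ⟨rfl, rfl⟩, fun h => e2A (h ▸ fa)⟩)
      (Or.inl fadj) gb (mem_erase.2 ⟨eg1.symm, ga⟩) gbu (fun h => g2A (h ▸ fa)) gau fg1.symm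
      (Or.inl gadj.symm)
    rwa [union_comm] at h
  have h5 := ext1R hp (G := G) (U := (↑((A.erase e.1) ∪ B) : Set V)) (v := e.1) (x := f.1)
    (y := e.2) (z := g.1) (w := u)
    (by
      rw [mem_coe, mem_union, mem_erase]
      rintro (h | h)
      · exact h.1 rfl
      · exact e1B h)
    (by rw [mem_coe, mem_union, mem_erase]; exact Or.inl ⟨ef1.symm, fa⟩)
    (by rw [mem_coe, mem_union]; exact Or.inr eb)
    (by rw [mem_coe, mem_union, mem_erase]; exact Or.inl ⟨eg1.symm, ga⟩)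
    (by rw [mem_coe, mem_union]; exact Or.inr huB)
    (fun h => f1B (h ▸ eb)) fg1 fau (fun h => g1B (h ▸ eb)) ebu gau
    (hA _ ea _ fa ef1) eadj (hA _ ea _ ga eg1) (hA _ ea _ huA eau) hstep
  refine rigid_of_set_eq h5 ?_
  ext x
  simp only [Set.mem_insert_iff, mem_coe, mem_union, mem_erase]
  constructor
  · rintro (rfl | ⟨-, h⟩ | h)
    · exact Or.inl ea
    · exact Or.inl h
    · exact Or.inr h
  · rintro (h | h)
    · by_cases hx : x = e.1
      · exact Or.inl hx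
      · exact Or.inr (Or.inl ⟨hx, h⟩)
    · exact Or.inr (Or.inr h)

/-- two cliques, a vertex `v ∈ B` with three neighbours in `A`, and at least three edges which
avoid `v` and have no common vertex -/
theorem state0a (hp : Gen p) {G : SimpleGraph V} {A B : Finset V} (hA : Cl G A) (hB : Cl G B)
    {v x y z : V} (hv : v ∈ B) (hx : x ∈ A) (hy : y ∈ A) (hz : z ∈ A)
    (hxy : x ≠ y) (hxz : x ≠ z) (hyz : y ≠ z)
    (ax : G.Adj v x) (ay : G.Adj v y) (az : G.Adj v z) (E : Finset (V × V))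
    (hE : ∀ e ∈ E, e.1 ∈ A ∧ e.2 ∈ B ∧ e.1 ≠ v ∧ e.2 ≠ v ∧ G.Adj e.1 e.2)
    (h3 : 3 ≤ E.card) (hcov : ∀ w, ∃ e ∈ E, e.1 ≠ w ∧ e.2 ≠ w) :
    RigidOn G (↑(A ∪ B) : Set V) p := by
  have e1 : RigidOn G (↑(insert v A) : Set V) p :=
    add_vertex hp (clique_rigid hp hA) hx hy hz hxy hxz hyz ax ay az
  have hset : (insert v A) ∪ B = A ∪ B := by
    ext x
    simp only [mem_union, mem_insert]
    constructor
    · rintro ((rfl | h) | h)
      · exact Or.inr hv
      · exact Or.inl h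
      · exact Or.inr h
    · rintro (h | h)
      · exact Or.inl (Or.inr h)
      · exact Or.inr h
  have e2 := state1 hp (G := G ⊔ Kn (insert v A)) (A := insert v A) (B := B)
    (cl_sup G _) (hB.mono le_sup_left) (u := v) (mem_insert_self v A) hv E
    (fun e he => ⟨mem_insert_of_mem (hE e he).1, (hE e he).2.1, (hE e he).2.2.1,
      (hE e he).2.2.2.1, Or.inl (hE e he).2.2.2.2⟩) h3 hcov
  rw [hset] at e2
  refine fill e1 ?_ e2
  intro x hx
  rw [mem_coe, ← hset]
  exact mem_union_left _ hx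

end Pool.Agent.TH912.Rig
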